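import Pool.Agent.Helper56.DivTwo.Defs

/-!
# The limit of `(|A0 n| - |exc n|) / n`
-/

namespace Pool.Agent.Helper56.DivTwo

open Finset Filter Topology

namespace Lim

/-! ### Counting -/

theorem card_dvd (N d : ℕ) : #((Icc 1 N).filter fun m => d ∣ m) = N / d :=
  Nat.Ioc_filter_dvd_card_eq_div N d

theorem card_dvd_not_dvd (N d d' : ℕ) (hd : d ∣ d') :
    (#((Icc 1 N).filter fun m => d ∣ m ∧ ¬ d' ∣ m) : ℝ) = (N / d : ℕ) - (N / d' : ℕ) := by
  have h1 : (Icc 1 N).filter (fun m => d ∣ m ∧ ¬ d' ∣ m) =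
      ((Icc 1 N).filter fun m => d ∣ m) \ ((Icc 1 N).filter fun m => d' ∣ m) := by
    ext m
    simp only [mem_filter, Finset.mem_sdiff]
    tauto
  have h2 : ((Icc 1 N).filter fun m => d' ∣ m) ⊆ ((Icc 1 N).filter fun m => d ∣ m) := by
    intro m
    simp only [mem_filter]
    rintro ⟨h1, h2⟩
    exact ⟨h1, hd.trans h2⟩
  rw [h1, cast_card_sdiff h2, card_dvd, card_dvd]

theorem floor_bounds (x : ℝ) (hx : 0 ≤ x) (d : ℕ) (_hd : 0 < d) :
    x / d - 1 ≤ ((⌊x⌋₊ / d : ℕ) : ℝ) ∧ ((⌊x⌋₊ / d : ℕ) : ℝ) ≤ x / d := by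
  have h1 : 0 ≤ x / d := div_nonneg hx (Nat.cast_nonneg d)
  rw [← Nat.floor_div_natCast]
  exact ⟨by have := Nat.lt_floor_add_one (x / d); linarith, Nat.floor_le h1⟩

/-- `v₃ m = j` -/
def P (j m : ℕ) : Prop := padicValNat 3 m = j

instance (j : ℕ) : DecidablePred (P j) := fun m => by unfold P; infer_instance

/-- `m` odd and `v₃ m = j` -/
def Po (j m : ℕ) : Prop := padicValNat 3 m = j ∧ Odd m

instance (j : ℕ) : DecidablePred (Po j) := fun m => by unfold Po; infer_instance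

theorem P_iff {j m : ℕ} (hm : m ≠ 0) : P j m ↔ 3 ^ j ∣ m ∧ ¬ 3 ^ (j + 1) ∣ m := by
  have : Fact (Nat.Prime 3) := ⟨Nat.prime_three⟩
  unfold P
  rw [padicValNat_dvd_iff_le hm, padicValNat_dvd_iff_le hm]
  omega

theorem filter_P (N j : ℕ) :
    (Icc 1 N).filter (P j) = (Icc 1 N).filter fun m => 3 ^ j ∣ m ∧ ¬ 3 ^ (j + 1) ∣ m := by
  ext m
  simp only [mem_filter, mem_Icc]
  constructor
  · rintro ⟨h1, h2⟩
    exact ⟨h1, (P_iff (by omega)).1 h2⟩
  · rintro ⟨h1, h2⟩
    exact ⟨h1, (P_iff (by omega)).2 h2⟩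

theorem card_P (j : ℕ) (x : ℝ) (hx : 0 ≤ x) :
    |(#((Icc 1 ⌊x⌋₊).filter (P j)) : ℝ) - 2 / 3 ^ (j + 1) * x| ≤ 1 := by
  rw [filter_P, card_dvd_not_dvd _ _ _ (pow_dvd_pow 3 (Nat.le_succ j))]
  have h1 := floor_bounds x hx (3 ^ j) (by positivity)
  have h2 := floor_bounds x hx (3 ^ (j + 1)) (by positivity)
  push_cast at h1 h2
  have h3 : x / 3 ^ j - x / 3 ^ (j + 1) = 2 / 3 ^ (j + 1) * x := by
    rw [pow_succ]
    field_simp
    ring
  rw [abs_le]
  constructor <;> linarith [h1.1, h1.2, h2.1, h2.2]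

theorem card_Po (j : ℕ) (x : ℝ) (hx : 0 ≤ x) :
    |(#((Icc 1 ⌊x⌋₊).filter (Po j)) : ℝ) - 1 / 3 ^ (j + 1) * x| ≤ 2 := by
  have h0 : ∀ i : ℕ, ∀ m : ℕ, 2 * 3 ^ i ∣ m ↔ 2 ∣ m ∧ 3 ^ i ∣ m := by
    intro i m
    constructor
    · intro h
      exact ⟨(Dvd.intro _ rfl).trans h, (Dvd.intro_left _ rfl).trans h⟩
    · rintro ⟨h1, h2⟩
      exact Nat.Coprime.mul_dvd_of_dvd_of_dvd
        (Nat.Coprime.pow_right i (by norm_num : Nat.Coprime 2 3)) h1 h2
  have hs : (Icc 1 ⌊x⌋₊).filter (Po j) =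
      ((Icc 1 ⌊x⌋₊).filter fun m => 3 ^ j ∣ m ∧ ¬ 3 ^ (j + 1) ∣ m) \
        ((Icc 1 ⌊x⌋₊).filter fun m => 2 * 3 ^ j ∣ m ∧ ¬ 2 * 3 ^ (j + 1) ∣ m) := by
    ext m
    simp only [mem_filter, Finset.mem_sdiff, mem_Icc]
    constructor
    · rintro ⟨h1, h2, h3⟩
      have h4 := (P_iff (j := j) (show m ≠ 0 by omega)).1 h2
      refine ⟨⟨h1, h4⟩, ?_⟩
      rintro ⟨-, h5, -⟩
      have h6 := ((h0 j m).1 h5).1
      rw [Nat.odd_iff] at h3
      omega
    · rintro ⟨⟨h1, h2⟩, h3⟩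
      refine ⟨h1, (P_iff (show m ≠ 0 by omega)).2 h2, ?_⟩
      by_contra h4
      rw [Nat.not_odd_iff_even, even_iff_two_dvd] at h4
      apply h3
      refine ⟨h1, (h0 j m).2 ⟨h4, h2.1⟩, fun h5 => h2.2 ((h0 _ m).1 h5).2⟩
  have hsub : ((Icc 1 ⌊x⌋₊).filter fun m => 2 * 3 ^ j ∣ m ∧ ¬ 2 * 3 ^ (j + 1) ∣ m) ⊆
      ((Icc 1 ⌊x⌋₊).filter fun m => 3 ^ j ∣ m ∧ ¬ 3 ^ (j + 1) ∣ m) := by
    intro m
    simp only [mem_filter]
    rintro ⟨h1, h2, h3⟩
    refine ⟨h1, ((h0 _ m).1 h2).2, fun h4 => h3 ((h0 _ m).2 ⟨((h0 _ m).1 h2).1, h4⟩)⟩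
  rw [hs, cast_card_sdiff hsub, card_dvd_not_dvd _ _ _ (pow_dvd_pow 3 (Nat.le_succ j)),
    card_dvd_not_dvd _ _ _ (Nat.mul_dvd_mul_left 2 (pow_dvd_pow 3 (Nat.le_succ j)))]
  have h1 := floor_bounds x hx (3 ^ j) (by positivity)
  have h2 := floor_bounds x hx (3 ^ (j + 1)) (by positivity)
  have h3 := floor_bounds x hx (2 * 3 ^ j) (by positivity)
  have h4 := floor_bounds x hx (2 * 3 ^ (j + 1)) (by positivity)
  push_cast at h1 h2 h3 h4
  have h5 : x / 3 ^ j - x / 3 ^ (j + 1) - (x / (2 * 3 ^ j) - x / (2 * 3 ^ (j + 1))) =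
      1 / 3 ^ (j + 1) * x := by
    rw [pow_succ]
    field_simp
    ring
  rw [abs_le]
  constructor <;> linarith [h1.1, h1.2, h2.1, h2.2, h3.1, h3.2, h4.1, h4.2]

/-- the density of the numbers with the property `Q` in an interval `(α n, β n]` -/
theorem tendsto_count (Q : ℕ → Prop) [DecidablePred Q] (δ C : ℝ)
    (hQ : ∀ x : ℝ, 0 ≤ x → |(#((Icc 1 ⌊x⌋₊).filter Q) : ℝ) - δ * x| ≤ C)
    (α β : ℝ) (hα : 0 ≤ α) (hβ0 : 0 ≤ β) (hβ : β ≤ 1) :
    Tendsto (fun n : ℕ => (#((Icc 1 n).filter fun m =>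
      Q m ∧ α * (n : ℝ) < (m : ℝ) ∧ (m : ℝ) ≤ β * (n : ℝ)) : ℝ) / (n : ℝ)) atTop
      (𝓝 (δ * max 0 (β - α))) := by
  rcases le_or_gt β α with h | h
  · rw [max_eq_left (sub_nonpos.2 h), mul_zero]
    have : ∀ n : ℕ, (#((Icc 1 n).filter fun m =>
      Q m ∧ α * (n : ℝ) < (m : ℝ) ∧ (m : ℝ) ≤ β * (n : ℝ)) : ℝ) / (n : ℝ) = 0 := by
      intro n
      have h1 : (Icc 1 n).filter (fun m =>
          Q m ∧ α * (n : ℝ) < (m : ℝ) ∧ (m : ℝ) ≤ β * (n : ℝ)) = ∅ := by
        rw [filter_eq_empty_iff]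
        rintro m - ⟨-, h2, h3⟩
        have h4 : β * (n : ℝ) ≤ α * n := mul_le_mul_of_nonneg_right h (Nat.cast_nonneg n)
        linarith
      rw [h1]
      simp
    simp only [this]
    exact tendsto_const_nhds
  · rw [max_eq_right (sub_nonneg.2 h.le)]
    have hC : 0 ≤ C := (abs_nonneg _).trans (hQ 0 le_rfl)
    rw [tendsto_iff_norm_sub_tendsto_zero]
    refine squeeze_zero' (Eventually.of_forall fun n => norm_nonneg _) ?_
      (tendsto_const_div_atTop_nhds_zero_nat (2 * C))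
    filter_upwards [eventually_gt_atTop 0] with n hn
    have hn' : (0 : ℝ) < n := Nat.cast_pos.2 hn
    have hset : (Icc 1 n).filter (fun m =>
        Q m ∧ α * (n : ℝ) < (m : ℝ) ∧ (m : ℝ) ≤ β * (n : ℝ)) =
        ((Icc 1 ⌊β * (n : ℝ)⌋₊).filter Q) \ ((Icc 1 ⌊α * (n : ℝ)⌋₊).filter Q) := by
      ext m
      simp only [mem_filter, Finset.mem_sdiff, mem_Icc]
      rw [Nat.le_floor_iff (mul_nonneg hβ0 hn'.le), Nat.le_floor_iff (mul_nonneg hα hn'.le)]
      constructor
      · rintro ⟨⟨h1, h2⟩, h3, h4, h5⟩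
        exact ⟨⟨⟨h1, h5⟩, h3⟩, fun h6 => absurd h6.1.2 (not_le.2 h4)⟩
      · rintro ⟨⟨⟨h1, h5⟩, h3⟩, h6⟩
        refine ⟨⟨h1, ?_⟩, h3, ?_, h5⟩
        · have : (m : ℝ) ≤ n := h5.trans (by nlinarith)
          exact_mod_cast this
        · by_contra h7
          exact h6 ⟨⟨h1, not_lt.1 h7⟩, h3⟩
    have hsub : ((Icc 1 ⌊α * (n : ℝ)⌋₊).filter Q) ⊆ ((Icc 1 ⌊β * (n : ℝ)⌋₊).filter Q) := by
      apply filter_subset_filter
      apply Icc_subset_Icc_right
      exact Nat.floor_le_floor (mul_le_mul_of_nonneg_right h.le hn'.le)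
    rw [hset, cast_card_sdiff hsub]
    have h1 := hQ (β * n) (mul_nonneg hβ0 hn'.le)
    have h2 := hQ (α * n) (mul_nonneg hα hn'.le)
    rw [Real.norm_eq_abs]
    have h3 : ((#((Icc 1 ⌊β * (n : ℝ)⌋₊).filter Q) : ℝ) - #((Icc 1 ⌊α * (n : ℝ)⌋₊).filter Q)) / n
        - δ * (β - α) = (((#((Icc 1 ⌊β * (n : ℝ)⌋₊).filter Q) : ℝ) - δ * (β * n)) -
          (#((Icc 1 ⌊α * (n : ℝ)⌋₊).filter Q) - δ * (α * n))) / n := by
      field_simp
      ring
    rw [h3, abs_div, abs_of_pos hn', div_le_div_iff_of_pos_right hn']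
    refine (abs_sub _ _).trans ?_
    linarith

/-! ### Thresholds -/

theorem aj_le (j : ℕ) : 2 ^ aj j ≤ 3 ^ j := Nat.pow_log_le_self 2 (by positivity)

theorem lt_aj (j : ℕ) : 3 ^ j < 2 * 2 ^ aj j := by
  have := Nat.lt_pow_succ_log_self one_lt_two (3 ^ j)
  rw [Nat.succ_eq_add_one, pow_succ] at this
  unfold aj
  omega

theorem th_lt (j n m c : ℕ) (hc : 0 < c) :
    th j / c * n < m ↔ 3 ^ j * n < c * 2 ^ aj j * m := by
  have hc' : (0 : ℝ) < c := Nat.cast_pos.2 hc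
  have h1 : th j / c * n = (3 ^ j * n : ℝ) / (c * 2 ^ aj j) := by
    unfold th
    field_simp
  rw [h1, div_lt_iff₀ (by positivity), ← @Nat.cast_lt ℝ]
  push_cast
  rw [mul_comm (m : ℝ)]

theorem th_pos (j : ℕ) : 1 ≤ th j := by
  unfold th
  rw [le_div_iff₀ (by positivity), one_mul]
  exact_mod_cast aj_le j

theorem th_lt_two (j : ℕ) : th j < 2 := by
  unfold th
  rw [div_lt_iff₀ (by positivity)]
  exact_mod_cast lt_aj j

theorem lam_lt {n m j : ℕ} (t : ℕ) (hm : 1 ≤ m) (hmn : m ≤ n) (hj : padicValNat 3 m = j) :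
    lam n m < t ↔ 3 ^ j * n < 2 ^ t * m := by
  unfold lam
  rw [hj]
  have h1 : 3 ^ j * n / m ≠ 0 := by
    have h2 : m ≤ 3 ^ j * n := hmn.trans (Nat.le_mul_of_pos_left n (by positivity))
    have := Nat.div_pos h2 hm
    omega
  rw [Nat.log_lt_iff_lt_pow one_lt_two h1, Nat.div_lt_iff_lt_mul (by omega)]

/-- left and right end points of the intervals -/
noncomputable def al1 (j : ℕ) : ℝ := if Even (aj j) then th j / 2 else 1 / 2
/-- right end point -/
noncomputable def be1 (j : ℕ) : ℝ := if Even (aj j) then 1 else th j / 2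
/-- left end point -/
noncomputable def al3 (j : ℕ) : ℝ := if Even (aj j) then 1 / 6 else max (1 / 6) (th j / 8)
/-- right end point -/
noncomputable def be3 (j : ℕ) : ℝ := if Even (aj j) then th j / 8 else 1 / 4
/-- left end point -/
noncomputable def alE (j : ℕ) : ℝ := if Even (aj j) then max (1 / 12) (th j / 20) else 1
/-- right end point -/
noncomputable def beE (j : ℕ) : ℝ := if Even (aj j) then min (1 / 10) (th j / 16) else 0

theorem cond1 {n m j : ℕ} (hm : 1 ≤ m) (hmn : m ≤ n) (hj : padicValNat 3 m = j) :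
    (n < 2 * m ∧ Even (lam n m)) ↔ (al1 j * n < m ∧ (m : ℝ) ≤ be1 j * n) := by
  have hA := aj_le j
  have hB := lt_aj j
  have hpos : 0 < 2 ^ aj j := by positivity
  have h0 : ¬ lam n m < aj j := by
    rw [lam_lt _ hm hmn hj, not_lt]
    exact Nat.mul_le_mul hA hmn
  have h1 := lam_lt (aj j + 1) hm hmn hj
  have h2 : n < 2 * m → lam n m < aj j + 2 := by
    intro h
    rw [lam_lt _ hm hmn hj, pow_add]
    calc 3 ^ j * n ≤ 2 * 2 ^ aj j * n := Nat.mul_le_mul_right n hB.le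
      _ < 2 * 2 ^ aj j * (2 * m) := Nat.mul_lt_mul_of_pos_left h (by positivity)
      _ = 2 ^ aj j * 2 ^ 2 * m := by ring
  have h3 := th_lt j n m 2 (by norm_num)
  have h4 : 2 * 2 ^ aj j * m = 2 ^ (aj j + 1) * m := by ring
  rw [h4, ← h1] at h3
  push_cast at h3
  unfold al1 be1
  split_ifs with ha
  · constructor
    · rintro ⟨h5, h6⟩
      have h7 := h2 h5
      have h8 : lam n m ≠ aj j + 1 := by
        intro h9
        rw [h9, Nat.even_add_one] at h6
        exact h6 ha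
      refine ⟨h3.2 (by omega), ?_⟩
      rw [one_mul]
      exact_mod_cast hmn
    · rintro ⟨h5, -⟩
      have h6 := h3.1 h5
      have h7 : lam n m = aj j := by omega
      rw [h7]
      refine ⟨?_, ha⟩
      rw [h1] at h6
      by_contra h8
      rw [not_lt] at h8
      have h9 : 2 ^ (aj j + 1) * m ≤ 3 ^ j * n := by
        calc 2 ^ (aj j + 1) * m = 2 ^ aj j * (2 * m) := by ring
          _ ≤ 3 ^ j * n := Nat.mul_le_mul hA h8
      omega
  · constructor
    · rintro ⟨h5, h6⟩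
      have h7 := h2 h5
      have h8 : lam n m ≠ aj j := fun h9 => ha (h9 ▸ h6)
      refine ⟨?_, not_lt.1 (fun h9 => absurd (h3.1 h9) (by omega))⟩
      have : (n : ℝ) < 2 * m := by exact_mod_cast h5
      linarith
    · rintro ⟨h5, h6⟩
      have h7 : n < 2 * m := by
        have : (n : ℝ) < 2 * m := by linarith
        exact_mod_cast this
      have h8 := h2 h7
      have h9 : ¬ lam n m < aj j + 1 := fun h => absurd (h3.2 h) (not_lt.2 h6)
      have h10 : lam n m = aj j + 1 := by omega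
      rw [h10, Nat.even_add_one]
      exact ⟨h7, ha⟩

theorem cond3 {n m j : ℕ} (hm : 1 ≤ m) (hmn : m ≤ n) (hj : padicValNat 3 m = j) :
    (4 * m ≤ n ∧ n < 6 * m ∧ Odd (lam n m)) ↔ (al3 j * n < m ∧ (m : ℝ) ≤ be3 j * n) := by
  have hA := aj_le j
  have hB := lt_aj j
  have hpos : 0 < 2 ^ aj j := by positivity
  have h0 : 4 * m ≤ n → ¬ lam n m < aj j + 2 := by
    intro h
    rw [lam_lt _ hm hmn hj, not_lt]
    calc 2 ^ (aj j + 2) * m = 2 ^ aj j * (4 * m) := by ring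
      _ ≤ 3 ^ j * n := Nat.mul_le_mul hA h
  have h1 := lam_lt (aj j + 3) hm hmn hj
  have h2 : n < 6 * m → lam n m < aj j + 4 := by
    intro h
    rw [lam_lt _ hm hmn hj, pow_add]
    calc 3 ^ j * n ≤ 2 * 2 ^ aj j * n := Nat.mul_le_mul_right n hB.le
      _ ≤ 2 * 2 ^ aj j * (6 * m) := Nat.mul_le_mul_left _ h.le
      _ = 2 ^ aj j * m * 12 := by ring
      _ < 2 ^ aj j * m * 16 := Nat.mul_lt_mul_of_pos_left (by norm_num) (by positivity)
      _ = 2 ^ aj j * 2 ^ 4 * m := by ring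
  have h3 := th_lt j n m 8 (by norm_num)
  have h4 : 8 * 2 ^ aj j * m = 2 ^ (aj j + 3) * m := by ring
  rw [h4, ← h1] at h3
  push_cast at h3
  have hth := th_lt_two j
  have hn0 : (0 : ℝ) ≤ n := Nat.cast_nonneg n
  unfold al3 be3
  split_ifs with ha
  · constructor
    · rintro ⟨h5, h6, h7⟩
      have h8 := h2 h6
      have h9 := h0 h5
      have h10 : lam n m ≠ aj j + 2 := by
        intro h11
        have h12 := Nat.odd_iff.1 h7
        have h13 := Nat.even_iff.1 ha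
        omega
      refine ⟨?_, not_lt.1 (fun h9 => absurd (h3.1 h9) (by omega))⟩
      have : (n : ℝ) < 6 * m := by exact_mod_cast h6
      linarith
    · rintro ⟨h5, h6⟩
      have h7 : n < 6 * m := by
        have : (n : ℝ) < 6 * m := by linarith
        exact_mod_cast this
      have h8 : 4 * m ≤ n := by
        have : 4 * (m : ℝ) ≤ n := by nlinarith
        exact_mod_cast this
      have h9 := h2 h7
      have h10 : ¬ lam n m < aj j + 3 := fun h => absurd (h3.2 h) (not_lt.2 h6)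
      have h11 : lam n m = aj j + 3 := by omega
      rw [h11, Nat.odd_add']
      exact ⟨h8, h7, by simp [ha]; decide⟩
  · constructor
    · rintro ⟨h5, h6, h7⟩
      have h8 := h2 h6
      have h9 := h0 h5
      have h10 : lam n m ≠ aj j + 3 := by
        intro h11
        rw [h11, Nat.odd_add'] at h7
        exact ha (h7.1 (by decide))
      have h12 : (n : ℝ) < 6 * m := by exact_mod_cast h6
      have h13 : 4 * (m : ℝ) ≤ n := by exact_mod_cast h5
      have h14 := h3.2 (by omega)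
      refine ⟨?_, by linarith⟩
      rw [max_mul_of_nonneg _ _ hn0]
      exact max_lt (by linarith) h14
    · rintro ⟨h5, h6⟩
      rw [max_mul_of_nonneg _ _ hn0, max_lt_iff] at h5
      have h7 : n < 6 * m := by
        have : (n : ℝ) < 6 * m := by linarith [h5.1]
        exact_mod_cast this
      have h8 : 4 * m ≤ n := by
        have : 4 * (m : ℝ) ≤ n := by linarith
        exact_mod_cast this
      have h9 := h3.1 h5.2
      have h10 := h0 h8
      have h11 : lam n m = aj j + 2 := by omega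
      rw [Nat.not_even_iff_odd] at ha
      refine ⟨h8, h7, ?_⟩
      have h13 := Nat.odd_iff.1 ha
      rw [Nat.odd_iff]
      omega

theorem condE {n m j : ℕ} (hm : 1 ≤ m) (hmn : m ≤ n) (hj : padicValNat 3 m = j) :
    (10 * m ≤ n ∧ n < 12 * m ∧ Even (lam n m) ∧ Odd (lam n (5 * m))) ↔
      (alE j * n < m ∧ (m : ℝ) ≤ beE j * n) := by
  have hA := aj_le j
  have hB := lt_aj j
  have hpos : 0 < 2 ^ aj j := by positivity
  have hth := th_lt_two j
  have hth1 := th_pos j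
  have hn0 : (0 : ℝ) ≤ n := Nat.cast_nonneg n
  have hm0 : (1 : ℝ) ≤ m := by exact_mod_cast hm
  have hj5 : padicValNat 3 (5 * m) = j := by
    have : Fact (Nat.Prime 3) := ⟨Nat.prime_three⟩
    rw [padicValNat.mul (by norm_num) (by omega), hj,
      padicValNat.eq_zero_of_not_dvd (by norm_num), zero_add]
  have h0 : 10 * m ≤ n → ¬ lam n m < aj j + 3 := by
    intro h
    rw [lam_lt _ hm hmn hj, not_lt]
    calc 2 ^ (aj j + 3) * m = 2 ^ aj j * (8 * m) := by ring
      _ ≤ 3 ^ j * n := Nat.mul_le_mul hA (by omega)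
  have h1 := lam_lt (aj j + 4) hm hmn hj
  have h2 : n < 12 * m → lam n m < aj j + 5 := by
    intro h
    rw [lam_lt _ hm hmn hj, pow_add]
    calc 3 ^ j * n ≤ 2 * 2 ^ aj j * n := Nat.mul_le_mul_right n hB.le
      _ ≤ 2 * 2 ^ aj j * (12 * m) := Nat.mul_le_mul_left _ h.le
      _ = 2 ^ aj j * m * 24 := by ring
      _ < 2 ^ aj j * m * 32 := Nat.mul_lt_mul_of_pos_left (by norm_num) (by positivity)
      _ = 2 ^ aj j * 2 ^ 5 * m := by ring
  have h3 := th_lt j n m 16 (by norm_num)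
  have h4 : 16 * 2 ^ aj j * m = 2 ^ (aj j + 4) * m := by ring
  rw [h4, ← h1] at h3
  push_cast at h3
  have k0 : 10 * m ≤ n → ¬ lam n (5 * m) < aj j + 1 := by
    intro h
    rw [lam_lt _ (by omega) (by omega) hj5, not_lt]
    calc 2 ^ (aj j + 1) * (5 * m) = 2 ^ aj j * (10 * m) := by ring
      _ ≤ 3 ^ j * n := Nat.mul_le_mul hA h
  have k2 : 10 * m ≤ n → n < 12 * m → lam n (5 * m) < aj j + 3 := by
    intro h' h
    rw [lam_lt _ (by omega) (by omega) hj5, pow_add]
    calc 3 ^ j * n ≤ 2 * 2 ^ aj j * n := Nat.mul_le_mul_right n hB.le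
      _ ≤ 2 * 2 ^ aj j * (12 * m) := Nat.mul_le_mul_left _ h.le
      _ = 2 ^ aj j * m * 24 := by ring
      _ < 2 ^ aj j * m * 40 := Nat.mul_lt_mul_of_pos_left (by norm_num) (by positivity)
      _ = 2 ^ aj j * 2 ^ 3 * (5 * m) := by ring
  have k3 : 10 * m ≤ n → (th j / 20 * n < m ↔ lam n (5 * m) < aj j + 2) := by
    intro h
    have k1 := th_lt j n m 20 (by norm_num)
    have k4 : 20 * 2 ^ aj j * m = 2 ^ (aj j + 2) * (5 * m) := by ring
    rw [lam_lt (aj j + 2) (by omega) (by omega) hj5, ← k4, ← k1]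
    push_cast
    rfl
  unfold alE beE
  split_ifs with ha
  · constructor
    · rintro ⟨h5, h6, h7, h8⟩
      have h9 := h0 h5
      have h10 := h2 h6
      have k9 := k0 h5
      have k10 := k2 h5 h6
      have h11 : lam n m ≠ aj j + 3 := by
        intro h12
        rw [h12, Nat.even_add] at h7
        exact absurd (h7.1 ha) (by decide)
      have k11 : lam n (5 * m) ≠ aj j + 2 := by
        intro h12
        have h13 := Nat.odd_iff.1 h8
        have h14 := Nat.even_iff.1 ha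
        omega
      have h13 := (k3 h5).2 (by omega)
      have h14 : (m : ℝ) ≤ th j / 16 * n := not_lt.1 (fun h9 => absurd (h3.1 h9) (by omega))
      have h15 : (n : ℝ) < 12 * m := by exact_mod_cast h6
      have h16 : 10 * (m : ℝ) ≤ n := by exact_mod_cast h5
      rw [max_mul_of_nonneg _ _ hn0, min_mul_of_nonneg _ _ hn0]
      exact ⟨max_lt (by linarith) h13, le_min (by linarith) h14⟩
    · rw [max_mul_of_nonneg _ _ hn0, min_mul_of_nonneg _ _ hn0, max_lt_iff, le_min_iff]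
      rintro ⟨⟨h5, h6⟩, h7, h8⟩
      have h9 : n < 12 * m := by
        have : (n : ℝ) < 12 * m := by linarith
        exact_mod_cast this
      have h10 : 10 * m ≤ n := by
        have : 10 * (m : ℝ) ≤ n := by linarith
        exact_mod_cast this
      have h11 := h2 h9
      have h12 : ¬ lam n m < aj j + 4 := fun h => absurd (h3.2 h) (not_lt.2 h8)
      have h13 : lam n m = aj j + 4 := by omega
      have k12 := (k3 h10).1 h6
      have k11 := k0 h10
      have k13 : lam n (5 * m) = aj j + 1 := by omega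
      refine ⟨h10, h9, ?_, ?_⟩
      · rw [h13, Nat.even_add]
        simp [ha]
        decide
      · rw [k13, Nat.odd_add_one, Nat.not_odd_iff_even]
        exact ha
  · constructor
    · rintro ⟨h5, h6, h7, h8⟩
      exfalso
      have h9 := h0 h5
      have h10 := h2 h6
      have k9 := k0 h5
      have k10 := k2 h5 h6
      have h11 : lam n m ≠ aj j + 4 := by
        intro h12
        rw [h12, Nat.even_add] at h7
        exact ha (h7.2 (by decide))
      have k11 : lam n (5 * m) ≠ aj j + 1 := by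
        intro h12
        rw [h12, Nat.odd_add_one] at h8
        exact h8 (Nat.not_even_iff_odd.1 ha)
      have h13 := h3.2 (show lam n m < aj j + 4 by omega)
      have h14 : ¬ th j / 20 * n < m := fun h => absurd ((k3 h5).1 h) (by omega)
      have h15 : th j / 20 * n ≤ th j / 16 * n :=
        mul_le_mul_of_nonneg_right (by linarith) hn0
      linarith
    · rintro ⟨h5, h6⟩
      exfalso
      linarith

/-! ### The limit -/

/-- first part of `A0` -/
def A1 (n : ℕ) : Finset ℕ := (Icc 1 n).filter fun m => n < 2 * m ∧ Even (lam n m)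
/-- second part of `A0` -/
def A2 (n : ℕ) : Finset ℕ := (Icc 1 n).filter fun m => 2 * m ≤ n ∧ n < 4 * m
/-- third part of `A0` -/
def A3 (n : ℕ) : Finset ℕ := (Icc 1 n).filter fun m => 4 * m ≤ n ∧ n < 6 * m ∧ Odd (lam n m)

theorem card_A0 (n : ℕ) : #(A0 n) = #(A1 n) + #(A2 n) + #(A3 n) := by
  have h1 : A0 n = (A1 n ∪ A2 n) ∪ A3 n := by
    ext m
    simp only [A0, A1, A2, A3, mem_filter, mem_union]
    tauto
  rw [h1, card_union_of_disjoint, card_union_of_disjoint]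
  · rw [Finset.disjoint_left]
    intro m hm1 hm2
    simp only [A1, A2, mem_filter] at hm1 hm2
    omega
  · rw [Finset.disjoint_left]
    intro m hm1 hm2
    simp only [A1, A2, A3, mem_filter, mem_union] at hm1 hm2
    omega

theorem fiber (n : ℕ) (s : Finset ℕ) (hs : s ⊆ Icc 1 n) :
    (#s : ℝ) = ∑' j : ℕ, (#(s.filter fun m => padicValNat 3 m = j) : ℝ) := by
  have hv : ∀ m ∈ s, padicValNat 3 m ∈ range (n + 1) := by
    intro m hm
    have h1 := mem_Icc.1 (hs hm)
    rw [mem_range]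
    have h2 : padicValNat 3 m ≤ Nat.log 3 m := padicValNat_le_nat_log m
    have h3 : Nat.log 3 m ≤ m := Nat.log_le_self 3 m
    omega
  rw [tsum_eq_sum (s := range (n + 1))]
  · rw [card_eq_sum_card_fiberwise (f := fun m => padicValNat 3 m) (t := range (n + 1)) hv]
    push_cast
    rfl
  · intro j hj
    have : s.filter (fun m => padicValNat 3 m = j) = ∅ := by
      rw [filter_eq_empty_iff]
      rintro m hm rfl
      exact hj (hv m hm)
    rw [this]
    simp

theorem summable_fiber (n : ℕ) (s : Finset ℕ) (hs : s ⊆ Icc 1 n) :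
    Summable fun j : ℕ => (#(s.filter fun m => padicValNat 3 m = j) : ℝ) := by
  apply summable_of_ne_finset_zero (s := range (n + 1))
  intro j hj
  have : s.filter (fun m => padicValNat 3 m = j) = ∅ := by
    rw [filter_eq_empty_iff]
    rintro m hm rfl
    apply hj
    have h1 := mem_Icc.1 (hs hm)
    rw [mem_range]
    have h2 : padicValNat 3 m ≤ Nat.log 3 m := padicValNat_le_nat_log m
    have h3 : Nat.log 3 m ≤ m := Nat.log_le_self 3 m
    omega
  rw [this]
  simp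

theorem fiber_le (n : ℕ) (s : Finset ℕ) (hs : s ⊆ Icc 1 n) (j : ℕ) :
    (#(s.filter fun m => padicValNat 3 m = j) : ℝ) / n ≤ (1 / 3) ^ j := by
  rcases Nat.eq_zero_or_pos n with rfl | hn
  · simp
  · have hn' : (0 : ℝ) < n := Nat.cast_pos.2 hn
    have h1 : s.filter (fun m => padicValNat 3 m = j) ⊆ (Icc 1 n).filter fun m => 3 ^ j ∣ m := by
      intro m hm
      rw [mem_filter] at hm ⊢
      have h2 := mem_Icc.1 (hs hm.1)
      exact ⟨hs hm.1, ((P_iff (j := j) (show m ≠ 0 by omega)).1 hm.2).1⟩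
    have h2 := card_le_card h1
    rw [card_dvd] at h2
    have h3 : ((n / 3 ^ j : ℕ) : ℝ) ≤ n / 3 ^ j := by
      have := Nat.cast_div_le (α := ℝ) (m := n) (n := 3 ^ j)
      push_cast at this
      exact this
    have h4 : (#(s.filter fun m => padicValNat 3 m = j) : ℝ) ≤ n / 3 ^ j :=
      le_trans (by exact_mod_cast h2) h3
    rw [div_le_iff₀ hn', one_div, inv_pow]
    calc _ ≤ _ := h4
      _ = _ := by rw [div_eq_inv_mul]

theorem A1_sub (n : ℕ) : A1 n ⊆ Icc 1 n := filter_subset _ _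
theorem A3_sub (n : ℕ) : A3 n ⊆ Icc 1 n := filter_subset _ _
theorem exc_sub (n : ℕ) : exc n ⊆ Icc 1 n := filter_subset _ _

theorem A1_fiber (n j : ℕ) : (A1 n).filter (fun m => padicValNat 3 m = j) =
    (Icc 1 n).filter fun m => P j m ∧ al1 j * (n : ℝ) < (m : ℝ) ∧ (m : ℝ) ≤ be1 j * (n : ℝ) := by
  ext m
  simp only [A1, mem_filter, mem_Icc]
  constructor
  · rintro ⟨⟨h1, h2⟩, h3⟩
    exact ⟨h1, h3, (cond1 h1.1 h1.2 h3).1 h2⟩
  · rintro ⟨h1, h3, h2⟩
    exact ⟨⟨h1, (cond1 h1.1 h1.2 h3).2 h2⟩, h3⟩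

theorem A3_fiber (n j : ℕ) : (A3 n).filter (fun m => padicValNat 3 m = j) =
    (Icc 1 n).filter fun m => P j m ∧ al3 j * (n : ℝ) < (m : ℝ) ∧ (m : ℝ) ≤ be3 j * (n : ℝ) := by
  ext m
  simp only [A3, mem_filter, mem_Icc]
  constructor
  · rintro ⟨⟨h1, h2⟩, h3⟩
    exact ⟨h1, h3, (cond3 h1.1 h1.2 h3).1 h2⟩
  · rintro ⟨h1, h3, h2⟩
    exact ⟨⟨h1, (cond3 h1.1 h1.2 h3).2 h2⟩, h3⟩

theorem exc_fiber (n j : ℕ) : (exc n).filter (fun m => padicValNat 3 m = j) =
    (Icc 1 n).filter fun m => Po j m ∧ alE j * (n : ℝ) < (m : ℝ) ∧ (m : ℝ) ≤ beE j * (n : ℝ) := by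
  ext m
  simp only [exc, mem_filter, mem_Icc]
  constructor
  · rintro ⟨⟨h1, h2, h4⟩, h3⟩
    exact ⟨h1, ⟨h3, h2⟩, (condE h1.1 h1.2 h3).1 h4⟩
  · rintro ⟨h1, ⟨h3, h2⟩, h4⟩
    exact ⟨⟨h1, h2, (condE h1.1 h1.2 h3).2 h4⟩, h3⟩

theorem w_eq (j : ℕ) : w j / 3 ^ (j + 1) = 2 / 3 ^ (j + 1) * max 0 (be1 j - al1 j) +
    2 / 3 ^ (j + 1) * max 0 (be3 j - al3 j) - 1 / 3 ^ (j + 1) * max 0 (beE j - alE j) := by
  have h1 := th_pos j
  have h2 := th_lt_two j
  have key : w j = 2 * max 0 (be1 j - al1 j) + 2 * max 0 (be3 j - al3 j) -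
      max 0 (beE j - alE j) := by
    unfold w be1 al1 be3 al3 beE alE
    split_ifs with ha
    · have e1 : 2 * max 0 (th j / 8 - 1 / 6) = max 0 (th j / 4 - 1 / 3) := by
        rw [mul_max_of_nonneg _ _ (by norm_num), mul_zero]
        congr 1
        ring
      rw [e1, max_eq_right (show 0 ≤ 1 - th j / 2 by linarith)]
      ring
    · have e1 : 2 * max (1 / 6) (th j / 8) = max (1 / 3) (th j / 4) := by
        rw [mul_max_of_nonneg _ _ (by norm_num)]
        congr 1 <;> ring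
      have e2 : max (1 / 6) (th j / 8) ≤ 1 / 4 := max_le (by norm_num) (by linarith)
      rw [max_eq_right (show 0 ≤ th j / 2 - 1 / 2 by linarith),
        max_eq_right (show 0 ≤ 1 / 4 - max (1 / 6) (th j / 8) by linarith),
        max_eq_left (show (0 : ℝ) - 1 ≤ 0 by norm_num), ← e1]
      ring
  rw [key]
  ring

theorem al1_nonneg (j : ℕ) : 0 ≤ al1 j := by
  have := th_pos j
  unfold al1
  split_ifs <;> linarith

theorem be1_mem (j : ℕ) : 0 ≤ be1 j ∧ be1 j ≤ 1 := by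
  have h1 := th_pos j
  have h2 := th_lt_two j
  unfold be1
  split_ifs <;> constructor <;> linarith

theorem al3_nonneg (j : ℕ) : 0 ≤ al3 j := by
  unfold al3
  split_ifs
  · norm_num
  · exact le_max_of_le_left (by norm_num)

theorem be3_mem (j : ℕ) : 0 ≤ be3 j ∧ be3 j ≤ 1 := by
  have h1 := th_pos j
  have h2 := th_lt_two j
  unfold be3
  split_ifs <;> constructor <;> linarith

theorem alE_nonneg (j : ℕ) : 0 ≤ alE j := by
  unfold alE
  split_ifs
  · exact le_max_of_le_left (by norm_num)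
  · norm_num

theorem beE_mem (j : ℕ) : 0 ≤ beE j ∧ beE j ≤ 1 := by
  have h1 := th_pos j
  have h2 := th_lt_two j
  unfold beE
  split_ifs
  · exact ⟨le_min (by norm_num) (by linarith), (min_le_left _ _).trans (by norm_num)⟩
  · constructor <;> norm_num

theorem tendsto_A2 : Tendsto (fun n : ℕ => (#(A2 n) : ℝ) / n) atTop (𝓝 (1 / 4)) := by
  have h := tendsto_count (fun _ => True) 1 1 (by
    intro x hx
    have h1 : (Icc 1 ⌊x⌋₊).filter (fun _ => True) = Icc 1 ⌊x⌋₊ := by simp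
    rw [h1, Nat.card_Icc, Nat.add_sub_cancel, one_mul, abs_le]
    have h2 := Nat.floor_le hx
    have h3 := Nat.lt_floor_add_one x
    constructor <;> linarith) (1 / 4) (1 / 2) (by norm_num) (by norm_num) (by norm_num)
  have e : (1 : ℝ) * max 0 (1 / 2 - 1 / 4) = 1 / 4 := by
    rw [max_eq_right (by norm_num)]
    norm_num
  rw [e] at h
  refine h.congr (fun n => ?_)
  congr 2
  apply congrArg
  ext m
  simp only [A2, mem_filter, true_and]
  constructor
  · rintro ⟨h0, h1, h2⟩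
    refine ⟨h0, ?_, ?_⟩
    · have : 2 * (m : ℝ) ≤ n := by linarith
      exact_mod_cast this
    · have : (n : ℝ) < 4 * m := by linarith
      exact_mod_cast this
  · rintro ⟨h0, h1, h2⟩
    have h3 : 2 * (m : ℝ) ≤ n := by exact_mod_cast h1
    have h4 : (n : ℝ) < 4 * m := by exact_mod_cast h2
    refine ⟨h0, ?_, ?_⟩ <;> linarith

/-- the term for `j` -/
noncomputable def term (n j : ℕ) : ℝ :=
  (#((A1 n).filter fun m => padicValNat 3 m = j) : ℝ) / n +
    (#((A3 n).filter fun m => padicValNat 3 m = j) : ℝ) / n -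
      (#((exc n).filter fun m => padicValNat 3 m = j) : ℝ) / n

theorem tendsto_term (j : ℕ) : Tendsto (fun n => term n j) atTop (𝓝 (w j / 3 ^ (j + 1))) := by
  rw [w_eq]
  unfold term
  refine Tendsto.sub (Tendsto.add ?_ ?_) ?_
  · simp only [A1_fiber]
    exact tendsto_count (P j) _ 1 (card_P j) _ _ (al1_nonneg j) (be1_mem j).1 (be1_mem j).2
  · simp only [A3_fiber]
    exact tendsto_count (P j) _ 1 (card_P j) _ _ (al3_nonneg j) (be3_mem j).1 (be3_mem j).2
  · simp only [exc_fiber]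
    exact tendsto_count (Po j) _ 2 (card_Po j) _ _ (alE_nonneg j) (beE_mem j).1 (beE_mem j).2

theorem split (n : ℕ) :
    ((#(A0 n) : ℝ) - #(exc n)) / n = (#(A2 n) : ℝ) / n + ∑' j : ℕ, term n j := by
  have h1 := (summable_fiber n (A1 n) (A1_sub n)).div_const (n : ℝ)
  have h3 := (summable_fiber n (A3 n) (A3_sub n)).div_const (n : ℝ)
  have hE := (summable_fiber n (exc n) (exc_sub n)).div_const (n : ℝ)
  unfold term
  rw [(h1.add h3).tsum_sub hE, h1.tsum_add h3, tsum_div_const, tsum_div_const, tsum_div_const,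
    ← fiber n (A1 n) (A1_sub n), ← fiber n (A3 n) (A3_sub n), ← fiber n (exc n) (exc_sub n),
    card_A0]
  push_cast
  ring

theorem term_bound (n j : ℕ) : ‖term n j‖ ≤ 2 * (1 / 3) ^ j := by
  have h1 := fiber_le n (A1 n) (A1_sub n) j
  have h3 := fiber_le n (A3 n) (A3_sub n) j
  have hE := fiber_le n (exc n) (exc_sub n) j
  have k1 : (0 : ℝ) ≤ (#((A1 n).filter fun m => padicValNat 3 m = j) : ℝ) / n := by positivity
  have k3 : (0 : ℝ) ≤ (#((A3 n).filter fun m => padicValNat 3 m = j) : ℝ) / n := by positivity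
  have kE : (0 : ℝ) ≤ (#((exc n).filter fun m => padicValNat 3 m = j) : ℝ) / n := by positivity
  unfold term
  rw [Real.norm_eq_abs, abs_le]
  constructor <;> linarith

end Lim

open Lim

theorem tendsto_A0_exc :
    Tendsto (fun n : ℕ => ((#(A0 n) : ℝ) - #(exc n)) / n) atTop (𝓝 L) := by
  have h : Tendsto (fun n : ℕ => ∑' j : ℕ, term n j) atTop
      (𝓝 (∑' j : ℕ, w j / 3 ^ (j + 1))) := by
    apply tendsto_tsum_of_dominated_convergence (bound := fun j => 2 * (1 / 3 : ℝ) ^ j)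
    · exact (summable_geometric_of_lt_one (by norm_num) (by norm_num)).mul_left 2
    · exact tendsto_term
    · exact Eventually.of_forall fun n j => term_bound n j
  have h2 := tendsto_A2.add h
  refine h2.congr (fun n => ?_)
  exact (split n).symm

end Pool.Agent.Helper56.DivTwo
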