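import Pool.Agent.Helper7.Act

set_option autoImplicit false

namespace Pool.Agent.Helper14.TaskC

open UniqueFactorizationMonoid Pool.Agent.Helper7

section C2

variable {A : Type*} [CommRing A] [IsDedekindDomain A]

theorem card_mul (I J : Ideal A) (hI : I ≠ ⊥) (hJ : J ≠ ⊥) :
    Nat.card (A ⧸ I * J) = Nat.card (A ⧸ I) * Nat.card (A ⧸ J) := by
  induction J using UniqueFactorizationMonoid.induction_on_prime generalizing I with
  | h₁ => exact absurd rfl hJ
  | h₂ x hx =>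
    have : x = ⊤ := Ideal.isUnit_iff.mp hx
    subst this
    rw [Ideal.mul_top]
    have : Nat.card (A ⧸ (⊤ : Ideal A)) = 1 := by
      rw [Nat.card_eq_one_iff_unique]
      exact ⟨inferInstance, inferInstance⟩
    rw [this, mul_one]
  | h₃ a p ha hp ih =>
    have hpb : p ≠ ⊥ := by
      intro h; rw [h] at hp; exact hp.ne_zero rfl
    have : p.IsPrime := Ideal.isPrime_of_prime hp
    have hIp : I * p ≠ ⊥ := mul_ne_zero hI hpb
    rw [← mul_assoc, ih (I * p) hIp ha, card_quotient_mul I p hI hpb, ih p hpb ha, mul_assoc]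

/-- the degree of an ideal -/
noncomputable def dg (q : ℕ) (I : Ideal A) : ℕ := Nat.log q (Nat.card (A ⧸ I))

variable {q : ℕ} (hq : 2 ≤ q) (hpow : ∀ I : Ideal A, I ≠ ⊥ → ∃ d, Nat.card (A ⧸ I) = q ^ d)

include hq hpow

theorem card_eq_pow_dg {I : Ideal A} (hI : I ≠ ⊥) : Nat.card (A ⧸ I) = q ^ dg q I := by
  obtain ⟨d, hd⟩ := hpow I hI
  rw [dg, hd, Nat.log_pow (by omega)]

theorem dg_eq_iff {I : Ideal A} (hI : I ≠ ⊥) (d : ℕ) : Nat.card (A ⧸ I) = q ^ d ↔ dg q I = d := by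
  constructor
  · intro h; rw [dg, h, Nat.log_pow (by omega)]
  · rintro rfl; exact card_eq_pow_dg hq hpow hI

theorem dg_mul {I J : Ideal A} (hI : I ≠ ⊥) (hJ : J ≠ ⊥) : dg q (I * J) = dg q I + dg q J := by
  rw [← dg_eq_iff hq hpow (mul_ne_zero hI hJ), card_mul I J hI hJ, card_eq_pow_dg hq hpow hI,
    card_eq_pow_dg hq hpow hJ, pow_add]

theorem dg_prod (s : Multiset (Ideal A)) (hs : ∀ P ∈ s, P ≠ ⊥) :
    dg q s.prod = (s.map (dg q)).sum := by
  induction s using Multiset.induction_on with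
  | empty =>
    rw [Multiset.prod_zero, Multiset.map_zero, Multiset.sum_zero, Ideal.one_eq_top,
      ← dg_eq_iff hq hpow (top_ne_bot), pow_zero, Nat.card_eq_one_iff_unique]
    exact ⟨inferInstance, inferInstance⟩
  | cons a s ih =>
    have h1 : s.prod ≠ ⊥ := by
      intro h
      have h2 : (0 : Ideal A) ∈ s := Multiset.prod_eq_zero_iff.mp h
      exact hs 0 (Multiset.mem_cons_of_mem h2) rfl
    rw [Multiset.prod_cons, dg_mul hq hpow (hs a (Multiset.mem_cons_self a s)) h1,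
      ih (fun P hP => hs P (Multiset.mem_cons_of_mem hP)), Multiset.map_cons, Multiset.sum_cons]

theorem dg_pos {P : Ideal A} (hP : P ≠ ⊥) (hP' : P ≠ ⊤) : 1 ≤ dg q P := by
  by_contra h
  have h0 : dg q P = 0 := by omega
  have h1 := card_eq_pow_dg hq hpow hP
  rw [h0, pow_zero, Nat.card_eq_one_iff_unique] at h1
  exact hP' (Ideal.Quotient.subsingleton_iff.mp h1.1)

theorem dg_eq_sum_count {I : Ideal A} (hI : I ≠ ⊥) (D : ℕ) (hD : dg q I ≤ D)
    (T : Finset (Ideal A)) (hT : ∀ P : Ideal A, P ∈ T ↔ P.IsPrime ∧ P ≠ ⊥ ∧ dg q P ≤ D) :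
    (dg q I) = ∑ P ∈ T, ∑ j ∈ Finset.Icc 1 D, by classical exact if P ^ j ∣ I then dg q P else 0 := by
  classical
  have hnf : ∀ P ∈ normalizedFactors I, P.IsPrime ∧ P ≠ ⊥ := by
    intro P hP
    have h1 : Prime P := prime_of_normalized_factor P hP
    exact ⟨Ideal.isPrime_of_prime h1, h1.ne_zero⟩
  have h0 : dg q I = ((normalizedFactors I).map (dg q)).sum := by
    conv_lhs => rw [← Ideal.prod_normalizedFactors_eq_self hI]
    exact dg_prod hq hpow _ (fun P hP => (hnf P hP).2)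
  have hsub : (normalizedFactors I).toFinset ⊆ T := by
    intro P hP
    rw [Multiset.mem_toFinset] at hP
    rw [hT]
    refine ⟨(hnf P hP).1, (hnf P hP).2, le_trans ?_ hD⟩
    rw [h0]
    exact Multiset.single_le_sum (fun _ _ => Nat.zero_le _) _ (Multiset.mem_map_of_mem _ hP)
  have h1 : dg q I = ∑ P ∈ T, (normalizedFactors I).count P * dg q P := by
    conv_lhs => rw [h0]
    rw [Finset.sum_multiset_map_count]
    simp only [smul_eq_mul]
    refine Finset.sum_subset hsub ?_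
    intro P _ hP
    rw [Multiset.mem_toFinset] at hP
    rw [Multiset.count_eq_zero_of_notMem hP, zero_mul]
  conv_lhs => rw [h1]
  refine Finset.sum_congr rfl ?_
  intro P hP
  have hPT := (hT P).1 hP
  have : P.IsPrime := hPT.1
  have hprime : Prime P := Ideal.prime_of_isPrime hPT.2.1 hPT.1
  have hpos := dg_pos hq hpow hPT.2.1 hPT.1.ne_top
  have hcnt : (normalizedFactors I).count P ≤ D := by
    have : (normalizedFactors I).count P * dg q P ≤ dg q I := by
      conv_rhs => rw [h1]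
      exact Finset.single_le_sum (f := fun P => (normalizedFactors I).count P * dg q P)
        (fun _ _ => Nat.zero_le _) hP
    nlinarith
  have hdvd : ∀ j, P ^ j ∣ I ↔ j ≤ (normalizedFactors I).count P := by
    intro j
    rw [pow_dvd_iff_le_emultiplicity, emultiplicity_eq_count_normalizedFactors hprime.irreducible hI,
      normalize_eq]
    exact_mod_cast Iff.rfl
  simp only [hdvd]
  rw [← Finset.sum_filter, Finset.sum_const, smul_eq_mul]
  congr 1
  have : Finset.filter (fun j => j ≤ (normalizedFactors I).count P) (Finset.Icc 1 D)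
      = Finset.Icc 1 ((normalizedFactors I).count P) := by
    ext j; simp only [Finset.mem_filter, Finset.mem_Icc]; omega
  rw [this]; simp

variable (hfin : ∀ N ≠ 0, {I : Ideal A | Nat.card (A ⧸ I) = N}.Finite)

omit hq hpow in
theorem ne_bot_of_card [Infinite A] {I : Ideal A} (hI : Nat.card (A ⧸ I) ≠ 0) : I ≠ ⊥ := by
  rintro rfl
  apply hI
  rw [Nat.card_congr (RingEquiv.quotientBot A).toEquiv]
  exact Nat.card_eq_zero_of_infinite

theorem inner_sum [Infinite A] {E : Type*} [Field E] (χ : Ideal A →* E) (d : ℕ) (P : Ideal A)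
    (hP : P ≠ ⊥) (j : ℕ) (S : ℕ → Finset (Ideal A))
    (hS : ∀ k I, I ∈ S k ↔ Nat.card (A ⧸ I) = q ^ k) :
    (∑ I ∈ S d, by classical exact if P ^ j ∣ I then χ I else 0) =
      if j * dg q P ≤ d then χ P ^ j * ∑ I ∈ S (d - j * dg q P), χ I else 0 := by
  classical
  have hPj : P ^ j ≠ ⊥ := pow_ne_zero j hP
  have hdgPj : dg q (P ^ j) = j * dg q P := by
    have := dg_prod hq hpow (Multiset.replicate j P) (fun Q hQ => by
      rw [Multiset.eq_of_mem_replicate hQ]; exact hP)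
    rw [Multiset.prod_replicate, Multiset.map_replicate, Multiset.sum_replicate, smul_eq_mul] at this
    exact this
  have hSne : ∀ k I, I ∈ S k → I ≠ ⊥ := by
    intro k I hI
    apply ne_bot_of_card
    rw [(hS k I).1 hI]
    positivity
  have hSdg : ∀ k I, I ∈ S k ↔ I ≠ ⊥ ∧ dg q I = k := by
    intro k I
    constructor
    · intro hI
      exact ⟨hSne k I hI, (dg_eq_iff hq hpow (hSne k I hI) k).1 ((hS k I).1 hI)⟩
    · rintro ⟨h1, h2⟩
      rw [hS, dg_eq_iff hq hpow h1]; exact h2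
  split_ifs with h
  · rw [← Finset.sum_filter]
    symm
    rw [Finset.mul_sum]
    refine Finset.sum_bij (fun I _ => P ^ j * I) ?_ ?_ ?_ ?_
    · intro I hI
      rw [hSdg] at hI
      rw [Finset.mem_filter, hSdg, dg_mul hq hpow hPj hI.1, hdgPj, hI.2]
      exact ⟨⟨mul_ne_zero hPj hI.1, by omega⟩, dvd_mul_right _ _⟩
    · intro I _ J _ hIJ
      exact mul_left_cancel₀ hPj hIJ
    · intro I hI
      rw [Finset.mem_filter, hSdg] at hI
      obtain ⟨⟨h1, h2⟩, J, hJ⟩ := hI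
      have hJ0 : J ≠ ⊥ := by
        rintro rfl
        apply h1; rw [hJ]; exact mul_zero _
      refine ⟨J, ?_, hJ.symm⟩
      rw [hSdg]
      refine ⟨hJ0, ?_⟩
      rw [hJ, dg_mul hq hpow hPj hJ0, hdgPj] at h2
      omega
    · intro I _
      rw [map_mul, map_pow]
  · refine Finset.sum_eq_zero ?_
    intro I hI
    rw [if_neg]
    rintro ⟨J, hJ⟩
    rw [hSdg] at hI
    have hJ0 : J ≠ ⊥ := by
      rintro rfl
      apply hI.1; rw [hJ]; exact mul_zero _
    have h2 := hI.2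
    rw [hJ, dg_mul hq hpow hPj hJ0, hdgPj] at h2
    omega

include hfin in
theorem logDeriv_coeff [Infinite A]
    {E : Type*} [Field E] (χ : Ideal A →* E) (d : ℕ) :
    (d : E) * ∑ᶠ I ∈ {I : Ideal A | Nat.card (A ⧸ I) = q ^ d}, χ I =
      ∑ m ∈ Finset.Icc 1 d,
        (∑ᶠ P ∈ {P : Ideal A | P.IsPrime ∧ P ≠ ⊥ ∧ Nat.log q (Nat.card (A ⧸ P)) ∣ m},
          (Nat.log q (Nat.card (A ⧸ P)) : E) * χ P ^ (m / Nat.log q (Nat.card (A ⧸ P)))) *
        ∑ᶠ I ∈ {I : Ideal A | Nat.card (A ⧸ I) = q ^ (d - m)}, χ I := by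
  classical
  have hq0 : ∀ k : ℕ, q ^ k ≠ 0 := fun k => by positivity
  let S : ℕ → Finset (Ideal A) := fun k => (hfin (q ^ k) (hq0 k)).toFinset
  have hS : ∀ k I, I ∈ S k ↔ Nat.card (A ⧸ I) = q ^ k := by
    intro k I
    simp [S]
  have hY : ∀ k, ∑ᶠ I ∈ {I : Ideal A | Nat.card (A ⧸ I) = q ^ k}, χ I = ∑ I ∈ S k, χ I := by
    intro k
    exact finsum_mem_eq_finite_toFinset_sum _ _
  simp only [hY]
  let T : Finset (Ideal A) := ((Finset.range (d + 1)).biUnion S).filter
    (fun P => P.IsPrime)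
  have hT : ∀ P : Ideal A, P ∈ T ↔ P.IsPrime ∧ P ≠ ⊥ ∧ dg q P ≤ d := by
    intro P
    simp only [T, Finset.mem_filter, Finset.mem_biUnion, Finset.mem_range, hS]
    constructor
    · rintro ⟨⟨k, hk, hP⟩, hP'⟩
      have hb : P ≠ ⊥ := by
        apply ne_bot_of_card; rw [hP]; exact hq0 k
      refine ⟨hP', hb, ?_⟩
      rw [(dg_eq_iff hq hpow hb k).1 hP]; omega
    · rintro ⟨h1, h2, h3⟩
      exact ⟨⟨dg q P, by omega, card_eq_pow_dg hq hpow h2⟩, h1⟩
  have hW : ∀ m ∈ Finset.Icc 1 d,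
      (∑ᶠ P ∈ {P : Ideal A | P.IsPrime ∧ P ≠ ⊥ ∧ Nat.log q (Nat.card (A ⧸ P)) ∣ m},
          (Nat.log q (Nat.card (A ⧸ P)) : E) * χ P ^ (m / Nat.log q (Nat.card (A ⧸ P))))
      = ∑ P ∈ T, if dg q P ∣ m then (dg q P : E) * χ P ^ (m / dg q P) else 0 := by
    intro m hm
    rw [Finset.mem_Icc] at hm
    rw [← Finset.sum_filter]
    have hset : {P : Ideal A | P.IsPrime ∧ P ≠ ⊥ ∧ Nat.log q (Nat.card (A ⧸ P)) ∣ m} =
        ((T.filter fun P => dg q P ∣ m : Finset (Ideal A)) : Set (Ideal A)) := by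
      ext P
      simp only [Set.mem_ofPred_eq, Finset.coe_filter, hT]
      constructor
      · rintro ⟨h1, h2, h3⟩
        exact ⟨⟨h1, h2, le_trans (Nat.le_of_dvd hm.1 h3) hm.2⟩, h3⟩
      · rintro ⟨⟨h1, h2, -⟩, h3⟩
        exact ⟨h1, h2, h3⟩
    rw [hset, finsum_mem_coe_finset]
    rfl
  have hR : ∑ m ∈ Finset.Icc 1 d,
        (∑ᶠ P ∈ {P : Ideal A | P.IsPrime ∧ P ≠ ⊥ ∧ Nat.log q (Nat.card (A ⧸ P)) ∣ m},
          (Nat.log q (Nat.card (A ⧸ P)) : E) * χ P ^ (m / Nat.log q (Nat.card (A ⧸ P)))) *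
        ∑ I ∈ S (d - m), χ I = ∑ m ∈ Finset.Icc 1 d, ∑ P ∈ T,
        (if dg q P ∣ m then (dg q P : E) * χ P ^ (m / dg q P) else 0) *
          ∑ I ∈ S (d - m), χ I := by
    refine Finset.sum_congr rfl (fun m hm => ?_)
    rw [hW m hm, Finset.sum_mul]
  rw [hR]
  -- left side
  have hL : (d : E) * ∑ I ∈ S d, χ I =
      ∑ P ∈ T, ∑ j ∈ Finset.Icc 1 d, (dg q P : E) *
        (if j * dg q P ≤ d then χ P ^ j * ∑ I ∈ S (d - j * dg q P), χ I else 0) := by
    have h1 : (d : E) * ∑ I ∈ S d, χ I = ∑ I ∈ S d, ∑ P ∈ T, ∑ j ∈ Finset.Icc 1 d,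
        (dg q P : E) * (if P ^ j ∣ I then χ I else 0) := by
      rw [Finset.mul_sum]
      refine Finset.sum_congr rfl ?_
      intro I hI
      rw [hS] at hI
      have hIb : I ≠ ⊥ := by
        apply ne_bot_of_card; rw [hI]; exact hq0 d
      have hId := (dg_eq_iff hq hpow hIb d).1 hI
      have h2 := dg_eq_sum_count hq hpow hIb d hId.le T hT
      rw [hId] at h2
      conv_lhs => rw [h2]
      push_cast
      rw [Finset.sum_mul]
      refine Finset.sum_congr rfl ?_
      intro P _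
      rw [Finset.sum_mul]
      refine Finset.sum_congr rfl ?_
      intro j _
      split_ifs <;> simp
    rw [h1, Finset.sum_comm]
    refine Finset.sum_congr rfl ?_
    intro P hP
    rw [Finset.sum_comm]
    refine Finset.sum_congr rfl ?_
    intro j _
    rw [← Finset.mul_sum]
    congr 1
    have := inner_sum hq hpow χ d P ((hT P).1 hP).2.1 j S hS
    convert this using 1
  rw [hL]
  conv_rhs => rw [Finset.sum_comm]
  refine Finset.sum_congr rfl ?_
  intro P hP
  have hPT := (hT P).1 hP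
  have hpos := dg_pos hq hpow hPT.2.1 hPT.1.ne_top
  -- reindex
  have e1 : ∑ j ∈ Finset.Icc 1 d, (dg q P : E) *
        (if j * dg q P ≤ d then χ P ^ j * ∑ I ∈ S (d - j * dg q P), χ I else 0)
      = ∑ j ∈ (Finset.Icc 1 d).filter (fun j => j * dg q P ≤ d), (dg q P : E) *
        (χ P ^ j * ∑ I ∈ S (d - j * dg q P), χ I) := by
    rw [Finset.sum_filter]
    refine Finset.sum_congr rfl ?_
    intro j _
    split_ifs <;> simp
  have e2 : ∑ m ∈ Finset.Icc 1 d,
      (if dg q P ∣ m then (dg q P : E) * χ P ^ (m / dg q P) else 0) * ∑ I ∈ S (d - m), χ I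
      = ∑ m ∈ (Finset.Icc 1 d).filter (fun m => dg q P ∣ m),
        (dg q P : E) * χ P ^ (m / dg q P) * ∑ I ∈ S (d - m), χ I := by
    rw [Finset.sum_filter]
    refine Finset.sum_congr rfl ?_
    intro j _
    split_ifs <;> simp
  rw [e1, e2]
  refine Finset.sum_bij (fun j _ => j * dg q P) ?_ ?_ ?_ ?_
  · intro j hj
    simp only [Finset.mem_filter, Finset.mem_Icc] at hj ⊢
    refine ⟨⟨?_, hj.2⟩, Dvd.intro_left _ rfl⟩
    nlinarith [hj.1.1]
  · intro a _ b _ hab
    exact Nat.eq_of_mul_eq_mul_right hpos hab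
  · intro m hm
    simp only [Finset.mem_filter, Finset.mem_Icc] at hm
    obtain ⟨⟨h1, h2⟩, c, hc⟩ := hm
    refine ⟨c, ?_, ?_⟩
    · simp only [Finset.mem_filter, Finset.mem_Icc]
      have hc1 : 1 ≤ c := by
        rcases Nat.eq_zero_or_pos c with h | h
        · rw [h, mul_zero] at hc; omega
        · exact h
      refine ⟨⟨hc1, ?_⟩, ?_⟩
      · nlinarith
      · rw [mul_comm, ← hc]; exact h2
    · rw [hc, mul_comm]
  · intro j _
    rw [Nat.mul_div_cancel _ hpos, mul_assoc]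

end C2

end Pool.Agent.Helper14.TaskC
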