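import Pool.Agent.Helper14.H7C2

set_option autoImplicit false

namespace Pool.Agent.Helper14.TaskC

open scoped nonZeroDivisors

section grp

variable {G : Type*} [AddCommGroup G]

theorem card_inf_of_sup_eq_top (J₁ J₂ V : AddSubgroup G) (h : J₁ ≤ J₂) (hV : J₁ ⊔ V = ⊤) :
    Nat.card ↥(J₂ ⊓ V) = Nat.card ↥(J₁ ⊓ V) * J₁.relIndex J₂ := by
  have h1 : J₂ = (J₂ ⊓ V) ⊔ J₁ := by
    rw [inf_sup_assoc_of_le V h, sup_comm, hV, inf_top_eq]
  have h2 : J₁.relIndex J₂ = J₁.relIndex (J₂ ⊓ V) := by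
    conv_lhs => rw [h1]
    exact AddSubgroup.relIndex_sup_right _ _
  have h3 : (J₁ ⊓ V).relIndex (J₂ ⊓ V) = J₁.relIndex (J₂ ⊓ V) := by
    have : J₁ ⊓ V = J₁ ⊓ (J₂ ⊓ V) := by
      rw [← inf_assoc, inf_eq_left.mpr h]
    rw [this, AddSubgroup.inf_relIndex_right]
  rw [h2, ← h3, ← AddSubgroup.relIndex_bot_left (J₁ ⊓ V),
    AddSubgroup.relIndex_mul_relIndex _ _ _ bot_le (inf_le_inf_right V h),
    AddSubgroup.relIndex_bot_left]

theorem relIndex_dvd_card_inf (A₀ J' V' : AddSubgroup G) (h : A₀ ≤ J') :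
    A₀.relIndex J' ∣ Nat.card ↥(J' ⊓ V') * (A₀ ⊔ V').index := by
  have h1 : A₀ ⊔ (J' ⊓ V') = J' ⊓ (A₀ ⊔ V') := by
    rw [inf_comm, inf_comm J', ← sup_inf_assoc_of_le V' h]
  have h2 : A₀.relIndex J' = A₀.relIndex (J' ⊓ (A₀ ⊔ V')) * (J' ⊓ (A₀ ⊔ V')).relIndex J' := by
    rw [AddSubgroup.relIndex_mul_relIndex _ _ _ (le_inf h le_sup_left) inf_le_left]
  rw [h2]
  refine mul_dvd_mul ?_ ?_
  · rw [← h1, sup_comm, AddSubgroup.relIndex_sup_right]
    exact AddSubgroup.relIndex_dvd_card _ _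
  · rw [AddSubgroup.inf_relIndex_left]
    exact AddSubgroup.relIndex_dvd_index_of_normal _ _

end grp

section frac

variable {A K : Type*} [CommRing A] [IsDedekindDomain A] [Field K] [Algebra A K]
  [IsFractionRing A K]

/-- A fractional ideal as an additive subgroup. -/
def fi (J : FractionalIdeal A⁰ K) : AddSubgroup K := (J : Submodule A K).toAddSubgroup

theorem mem_fi {J : FractionalIdeal A⁰ K} {x : K} : x ∈ fi J ↔ x ∈ J := Iff.rfl

theorem fi_mono {J₁ J₂ : FractionalIdeal A⁰ K} (h : J₁ ≤ J₂) : fi J₁ ≤ fi J₂ := h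

theorem fi_coeIdeal (I : Ideal A) :
    fi (I : FractionalIdeal A⁰ K) = (Submodule.toAddSubgroup I).map (algebraMap A K : A →+ K) := by
  ext x
  rw [mem_fi, FractionalIdeal.mem_coeIdeal]
  rfl

theorem fi_singleton_mul (a : K) (J : FractionalIdeal A⁰ K) :
    fi (FractionalIdeal.spanSingleton A⁰ a * J) = (fi J).map (AddMonoidHom.mulLeft a) := by
  ext x
  rw [mem_fi, FractionalIdeal.mem_singleton_mul, AddSubgroup.mem_map]
  constructor
  · rintro ⟨y, hy, rfl⟩; exact ⟨y, hy, rfl⟩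
  · rintro ⟨y, hy, rfl⟩; exact ⟨y, hy, rfl⟩

theorem mulLeft_injective' {a : K} (ha : a ≠ 0) :
    Function.Injective (AddMonoidHom.mulLeft a : K →+ K) := by
  intro x y h
  exact mul_left_cancel₀ ha h

theorem relIndex_fi_mul (hfq : ∀ I : Ideal A, I ≠ ⊥ → Finite (A ⧸ I))
    (J : FractionalIdeal A⁰ K) (hJ : J ≠ 0) (Z : Ideal A) (hZ : Z ≠ ⊥) :
    (fi (J * (Z : FractionalIdeal A⁰ K))).relIndex (fi J) = Nat.card (A ⧸ Z) := by
  obtain ⟨a, J0, ha, hJ0⟩ := FractionalIdeal.exists_eq_spanSingleton_mul J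
  have ha' : (algebraMap A K a)⁻¹ ≠ 0 := by
    simpa using ha
  have hJ0b : J0 ≠ ⊥ := by
    rintro rfl
    apply hJ; rw [hJ0]; simp
  rw [hJ0, mul_assoc, fi_singleton_mul, fi_singleton_mul,
    AddSubgroup.relIndex_map_map_of_injective _ _ (mulLeft_injective' ha'),
    ← FractionalIdeal.coeIdeal_mul, fi_coeIdeal, fi_coeIdeal,
    AddSubgroup.relIndex_map_map_of_injective _ _ (IsFractionRing.injective A K)]
  have hle : J0 * Z ≤ J0 := Ideal.mul_le_left
  have h1 : (Submodule.toAddSubgroup (J0 * Z)).relIndex (Submodule.toAddSubgroup J0) *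
      (Submodule.toAddSubgroup J0).index = (Submodule.toAddSubgroup (J0 * Z)).index :=
    AddSubgroup.relIndex_mul_index hle
  have h2 : (Submodule.toAddSubgroup J0).index = Nat.card (A ⧸ J0) := rfl
  have h3 : (Submodule.toAddSubgroup (J0 * Z)).index = Nat.card (A ⧸ J0 * Z) := rfl
  rw [h2, h3, card_mul J0 Z hJ0b hZ, mul_comm] at h1
  have := hfq J0 hJ0b
  have h4 : 0 < Nat.card (A ⧸ J0) := Nat.card_pos
  exact Nat.eq_of_mul_eq_mul_left h4 h1

end frac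

end Pool.Agent.Helper14.TaskC
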