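import Pool.Agent.Helper7.Model
import Pool.Agent.Helper14.H7Frac

set_option autoImplicit false

namespace Pool.Agent.Helper14.TaskC

open Pool.Agent.Helper7
open scoped nonZeroDivisors

variable {K : Type*} [Field K] (𝓜 : Model K)

instance ded : IsDedekindDomain 𝓜.A := 𝓜.ded
instance frac : IsFractionRing 𝓜.A K := 𝓜.frac

/-- functions with poles at `S` bounded by those of `t ^ n` -/
def V (n : ℤ) : AddSubgroup K where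
  carrier := {z | z * 𝓜.t ^ (-n) ∈ 𝓜.O}
  zero_mem' := by simp [𝓜.O.zero_mem]
  add_mem' := by
    intro a b ha hb
    have : (a + b) * 𝓜.t ^ (-n) = a * 𝓜.t ^ (-n) + b * 𝓜.t ^ (-n) := by ring
    show (a + b) * 𝓜.t ^ (-n) ∈ 𝓜.O
    rw [this]
    exact 𝓜.O.add_mem ha hb
  neg_mem' := by
    intro a ha
    show (-a) * 𝓜.t ^ (-n) ∈ 𝓜.O
    rw [neg_mul]
    exact 𝓜.O.neg_mem ha

variable {𝓜}

theorem mem_V {n : ℤ} {z : K} : z ∈ V 𝓜 n ↔ z * 𝓜.t ^ (-n) ∈ 𝓜.O := Iff.rfl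

theorem mem_V_zero {z : K} : z ∈ V 𝓜 0 ↔ z ∈ 𝓜.O := by
  rw [mem_V]; simp

theorem mul_mem_V {n m : ℤ} {z w : K} (hz : z ∈ V 𝓜 n) (hw : w ∈ V 𝓜 m) : z * w ∈ V 𝓜 (n + m) := by
  rw [mem_V] at *
  have : z * w * 𝓜.t ^ (-(n + m)) = (z * 𝓜.t ^ (-n)) * (w * 𝓜.t ^ (-m)) := by
    rw [neg_add, zpow_add₀ 𝓜.t_ne]; ring
  rw [this]
  exact 𝓜.O.mul_mem hz hw

theorem V_mono {n m : ℤ} (h : n ≤ m) : V 𝓜 n ≤ V 𝓜 m := by
  intro z hz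
  rw [mem_V] at *
  obtain ⟨k, rfl⟩ := Int.le.dest h
  have : z * 𝓜.t ^ (-(n + k)) = (z * 𝓜.t ^ (-n)) * (𝓜.t⁻¹) ^ k := by
    rw [neg_add, zpow_add₀ 𝓜.t_ne, ← mul_assoc, zpow_neg _ (k : ℤ), zpow_natCast, inv_pow]
  rw [this]
  exact 𝓜.O.mul_mem hz (𝓜.O.pow_mem 𝓜.tinv_mem k)

theorem t_zpow_mem (n : ℤ) : 𝓜.t ^ n ∈ V 𝓜 n := by
  rw [mem_V, ← zpow_add₀ 𝓜.t_ne]; simp [𝓜.O.one_mem]

theorem natMem_V {N : ℕ} {z : K} : z ∈ V 𝓜 N ↔ z * 𝓜.t⁻¹ ^ N ∈ 𝓜.O := by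
  rw [mem_V, zpow_neg, zpow_natCast, inv_pow]

theorem exists_mem_V (𝓜 : Model K) (z : K) : ∃ N : ℕ, z ∈ V 𝓜 N := by
  obtain ⟨N, hN⟩ := 𝓜.exh z
  exact ⟨N, natMem_V.2 hN⟩

theorem mem_fi_one {z : K} : z ∈ fi (1 : FractionalIdeal 𝓜.A⁰ K) ↔ z ∈ 𝓜.A := by
  rw [mem_fi, FractionalIdeal.mem_one_iff]
  constructor
  · rintro ⟨x, rfl⟩; exact x.2
  · intro h; exact ⟨⟨z, h⟩, rfl⟩

theorem finite_fi_one (𝓜 : Model K) (n : ℤ) :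
    Finite ↥(fi (1 : FractionalIdeal 𝓜.A⁰ K) ⊓ V 𝓜 n) := by
  have h := 𝓜.fin n.toNat
  refine Set.Finite.subset h ?_
  intro z hz
  refine ⟨mem_fi_one.1 hz.1, natMem_V.1 (V_mono (Int.self_le_toNat n) hz.2)⟩

theorem finite_fi (J : FractionalIdeal 𝓜.A⁰ K) (n : ℤ) :
    Finite ↥(fi J ⊓ V 𝓜 n) := by
  obtain ⟨a, J0, ha, hJ0⟩ := FractionalIdeal.exists_eq_spanSingleton_mul J
  have ha' : algebraMap 𝓜.A K a ≠ 0 := by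
    rw [Ne, FaithfulSMul.algebraMap_eq_zero_iff]; exact ha
  obtain ⟨N, hN⟩ := exists_mem_V 𝓜 (algebraMap 𝓜.A K a)
  have hf := finite_fi_one 𝓜 (N + n)
  have hf' : Set.Finite ((fi (1 : FractionalIdeal 𝓜.A⁰ K) ⊓ V 𝓜 (N + n) : AddSubgroup K) : Set K) := hf
  have : Set.Finite ((fun x : K => algebraMap 𝓜.A K a * x) ''
      ((fi J ⊓ V 𝓜 n : AddSubgroup K) : Set K)) := by
    refine Set.Finite.subset hf' ?_
    rintro _ ⟨x, hx, rfl⟩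
    refine ⟨?_, mul_mem_V hN hx.2⟩
    have h1 : x ∈ J := hx.1
    rw [hJ0, FractionalIdeal.mem_singleton_mul] at h1
    obtain ⟨y, hy, rfl⟩ := h1
    show algebraMap 𝓜.A K a * ((algebraMap 𝓜.A K a)⁻¹ * y) ∈ fi (1 : FractionalIdeal 𝓜.A⁰ K)
    rw [← mul_assoc, mul_inv_cancel₀ ha', one_mul]
    exact FractionalIdeal.coeIdeal_le_one hy
  exact Set.Finite.of_finite_image this (fun x _ y _ h => mul_left_cancel₀ ha' h)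

theorem cov_one (𝓜 : Model K) : ∃ N : ℕ, fi (1 : FractionalIdeal 𝓜.A⁰ K) ⊔ V 𝓜 N = ⊤ := by
  obtain ⟨N, hN⟩ := 𝓜.cov
  refine ⟨N, ?_⟩
  rw [eq_top_iff]
  intro z _
  obtain ⟨a, ha, h⟩ := hN z
  rw [AddSubgroup.mem_sup]
  exact ⟨a, mem_fi_one.2 ha, z - a, natMem_V.2 h, by ring⟩

theorem cov_fi (J : FractionalIdeal 𝓜.A⁰ K) (hJ : J ≠ 0) : ∃ N : ℕ, ∀ n : ℤ, N ≤ n →
    fi J ⊔ V 𝓜 n = ⊤ := by
  obtain ⟨N, hN⟩ := cov_one 𝓜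
  obtain ⟨a, haJ, ha⟩ : ∃ a ∈ J, a ≠ 0 := by
    by_contra h
    push Not at h
    apply hJ
    rw [FractionalIdeal.eq_zero_iff]
    exact h
  obtain ⟨N', hN'⟩ := exists_mem_V 𝓜 a
  refine ⟨N' + N, fun n hn => ?_⟩
  rw [eq_top_iff]
  intro z _
  have h1 : a⁻¹ * z ∈ fi (1 : FractionalIdeal 𝓜.A⁰ K) ⊔ V 𝓜 N := by rw [hN]; trivial
  rw [AddSubgroup.mem_sup] at h1 ⊢
  obtain ⟨b, hb, v, hv, hbv⟩ := h1
  refine ⟨a * b, ?_, a * v, V_mono (by push_cast at hn; linarith) (mul_mem_V hN' hv), ?_⟩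
  · rw [mem_fi_one] at hb
    have : a * b = (⟨b, hb⟩ : 𝓜.A) • a := by
      rw [Subring.smul_def]; simp [mul_comm]
    rw [this, mem_fi]
    exact (J : Submodule 𝓜.A K).smul_mem _ haJ
  · rw [← mul_add, hbv, ← mul_assoc, mul_inv_cancel₀ ha, one_mul]

theorem relIndex_fi_one (I : Ideal 𝓜.A) :
    (fi (I : FractionalIdeal 𝓜.A⁰ K)).relIndex (fi (1 : FractionalIdeal 𝓜.A⁰ K)) =
      Nat.card (𝓜.A ⧸ I) := by
  have : (1 : FractionalIdeal 𝓜.A⁰ K) = ((⊤ : Ideal 𝓜.A) : FractionalIdeal 𝓜.A⁰ K) := by simp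
  rw [this, fi_coeIdeal, fi_coeIdeal,
    AddSubgroup.relIndex_map_map_of_injective _ _ (IsFractionRing.injective 𝓜.A K)]
  have h1 : Submodule.toAddSubgroup (⊤ : Ideal 𝓜.A) = ⊤ := rfl
  rw [h1, AddSubgroup.relIndex_top_right]
  rfl

theorem finite_quotient (I : Ideal 𝓜.A) (hI : I ≠ ⊥) : Finite (𝓜.A ⧸ I) := by
  have hI' : (I : FractionalIdeal 𝓜.A⁰ K) ≠ 0 := FractionalIdeal.coeIdeal_ne_zero.2 hI
  obtain ⟨N, hN⟩ := cov_fi (I : FractionalIdeal 𝓜.A⁰ K) hI'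
  have h1 := card_inf_of_sup_eq_top (fi (I : FractionalIdeal 𝓜.A⁰ K))
    (fi (1 : FractionalIdeal 𝓜.A⁰ K)) (V 𝓜 N) (fi_mono FractionalIdeal.coeIdeal_le_one) (hN N le_rfl)
  have h2 := finite_fi_one 𝓜 N
  have h3 : 0 < Nat.card ↥(fi (1 : FractionalIdeal 𝓜.A⁰ K) ⊓ V 𝓜 N) := Nat.card_pos
  rw [relIndex_fi_one] at h1
  apply Nat.finite_of_card_ne_zero
  intro h
  rw [h, mul_zero] at h1
  omega

theorem exists_ne_zero_of_card {G : Type*} [AddCommGroup G] (J J' V' : AddSubgroup G)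
    (hne : J.relIndex J' ≠ 0) (hlt : J.relIndex J' < Nat.card ↥(J' ⊓ V')) :
    ∃ z, z ≠ 0 ∧ z ∈ J ∧ z ∈ V' := by
  by_contra h
  push Not at h
  have hbot : J ⊓ (J' ⊓ V') = ⊥ := by
    rw [eq_bot_iff]
    intro z hz
    by_contra hz0
    exact h z hz0 hz.1 hz.2.2
  have h1 : J.relIndex (J' ⊓ V') = Nat.card ↥(J' ⊓ V') := by
    rw [← AddSubgroup.inf_relIndex_right, hbot, AddSubgroup.relIndex_bot_left]
  have h2 : J.relIndex (J' ⊓ V') ≤ J.relIndex J' :=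
    AddSubgroup.relIndex_le_of_le_right inf_le_left hne
  omega

theorem index_ne_zero (n : ℤ) : (fi (1 : FractionalIdeal 𝓜.A⁰ K) ⊔ V 𝓜 n).index ≠ 0 := by
  obtain ⟨N, hN⟩ := cov_one 𝓜
  rcases le_total (N : ℤ) n with h | h
  · have : fi (1 : FractionalIdeal 𝓜.A⁰ K) ⊔ V 𝓜 n = ⊤ := by
      rw [eq_top_iff, ← hN]
      exact sup_le_sup_left (V_mono h) _
    rw [this]; simp
  · obtain ⟨k, hk⟩ := Int.le.dest h
    -- `n + k = N`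
    have hmono : V 𝓜 N ≤ V 𝓜 (N + k) := V_mono (by omega)
    have h1 : V 𝓜 (N + k) = (V 𝓜 (N + k) ⊓ fi (1 : FractionalIdeal 𝓜.A⁰ K)) ⊔ V 𝓜 N := by
      rw [inf_sup_assoc_of_le _ hmono, hN, inf_top_eq]
    have h2 : (V 𝓜 N).relIndex (V 𝓜 (N + k)) ≠ 0 := by
      rw [h1, AddSubgroup.relIndex_sup_right]
      have h3 := AddSubgroup.relIndex_dvd_card (V 𝓜 N)
        (V 𝓜 (N + k) ⊓ fi (1 : FractionalIdeal 𝓜.A⁰ K))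
      have h4 := finite_fi_one 𝓜 (N + k)
      rw [inf_comm] at h4
      intro h5
      rw [h5, zero_dvd_iff] at h3
      have : 0 < Nat.card ↥(V 𝓜 (N + k) ⊓ fi (1 : FractionalIdeal 𝓜.A⁰ K)) := Nat.card_pos
      omega
    have hmap : ∀ m : ℤ, (V 𝓜 m).map (AddMonoidHom.mulLeft (𝓜.t ^ (k : ℤ))) = V 𝓜 (m + k) := by
      intro m
      ext z
      rw [AddSubgroup.mem_map]
      constructor
      · rintro ⟨y, hy, rfl⟩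
        rw [add_comm]
        exact mul_mem_V (t_zpow_mem _) hy
      · intro hz
        refine ⟨𝓜.t ^ (-(k : ℤ)) * z, ?_, ?_⟩
        · have := mul_mem_V (t_zpow_mem (𝓜 := 𝓜) (-(k : ℤ))) hz
          have e : -(k : ℤ) + (m + k) = m := by ring
          rw [e] at this
          exact this
        · show 𝓜.t ^ (k : ℤ) * (𝓜.t ^ (-(k : ℤ)) * z) = z
          rw [← mul_assoc, ← zpow_add₀ 𝓜.t_ne]; simp
    have h3 : (V 𝓜 n).relIndex (V 𝓜 N) ≠ 0 := by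
      have : (V 𝓜 N).relIndex (V 𝓜 (N + k)) = (V 𝓜 n).relIndex (V 𝓜 N) := by
        rw [← AddSubgroup.relIndex_map_map_of_injective (V 𝓜 n) (V 𝓜 N)
          (mulLeft_injective' (zpow_ne_zero (k : ℤ) 𝓜.t_ne)), hmap, hmap, hk]
      rwa [← this]
    have h4 : fi (1 : FractionalIdeal 𝓜.A⁰ K) ⊔ V 𝓜 N =
        V 𝓜 N ⊔ (fi (1 : FractionalIdeal 𝓜.A⁰ K) ⊔ V 𝓜 n) := by
      apply le_antisymm
      · exact sup_le (le_trans le_sup_left le_sup_right) le_sup_left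
      · exact sup_le le_sup_right (sup_le_sup_left (V_mono h) _)
    rw [← AddSubgroup.relIndex_top_right, ← hN, h4, AddSubgroup.relIndex_sup_right]
    intro h5
    exact h3 (AddSubgroup.relIndex_eq_zero_of_le_left le_sup_right h5)

theorem infinite_A (𝓜 : Model K) : Infinite 𝓜.A := by
  refine Infinite.of_injective (fun N : ℕ => (⟨𝓜.t ^ N, 𝓜.A.pow_mem 𝓜.t_mem N⟩ : 𝓜.A)) ?_
  intro a b h
  exact 𝓜.infinite (congrArg Subtype.val h)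

/-- the set of ideals containing a given nonzero element is finite -/
theorem finite_ideals_mem (a : 𝓜.A) (ha : a ≠ 0) : {I : Ideal 𝓜.A | a ∈ I}.Finite := by
  have h1 : Finite (𝓜.A ⧸ Ideal.span {a}) := finite_quotient _ (by simpa using ha)
  have h2 : Finite (Set (𝓜.A ⧸ Ideal.span {a})) := inferInstance
  refine Set.Finite.of_finite_image (f := fun I : Ideal 𝓜.A =>
    (Ideal.Quotient.mk (Ideal.span {a}) '' (I : Set 𝓜.A))) (Set.toFinite _) ?_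
  intro I hI J hJ h
  have key : ∀ I J : Ideal 𝓜.A, a ∈ J →
      (Ideal.Quotient.mk (Ideal.span {a}) '' (I : Set 𝓜.A)) =
      (Ideal.Quotient.mk (Ideal.span {a}) '' (J : Set 𝓜.A)) → I ≤ J := by
    intro I J hJ h x hx
    have : Ideal.Quotient.mk (Ideal.span {a}) x ∈
      (Ideal.Quotient.mk (Ideal.span {a}) '' (J : Set 𝓜.A)) := by
      rw [← h]; exact ⟨x, hx, rfl⟩
    obtain ⟨y, hy, hyx⟩ := this
    rw [Ideal.Quotient.eq, Ideal.mem_span_singleton] at hyx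
    obtain ⟨c, hc⟩ := hyx
    have : x = y - a * c := by rw [← hc]; ring
    rw [this]
    exact J.sub_mem hy (J.mul_mem_right c hJ)
  exact le_antisymm (key I J hJ h) (key J I hI h.symm)

theorem card_fi_one_large (𝓜 : Model K) (N : ℕ) :
    N < Nat.card ↥(fi (1 : FractionalIdeal 𝓜.A⁰ K) ⊓ V 𝓜 N) := by
  have := finite_fi_one 𝓜 N
  let f : Fin (N + 1) → ↥(fi (1 : FractionalIdeal 𝓜.A⁰ K) ⊓ V 𝓜 N) := fun i =>
    ⟨𝓜.t ^ (i : ℕ), mem_fi_one.2 (𝓜.A.pow_mem 𝓜.t_mem _), by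
      have h := t_zpow_mem (𝓜 := 𝓜) (i : ℕ)
      rw [zpow_natCast] at h
      exact V_mono (by have := i.2; omega) h⟩
  have hf : Function.Injective f := by
    intro i j h
    have := 𝓜.infinite (congrArg Subtype.val h)
    exact Fin.ext this
  have := Nat.card_le_card_of_injective f hf
  simpa using this

theorem finite_ideals (𝓜 : Model K) (N : ℕ) (hN : N ≠ 0) :
    {I : Ideal 𝓜.A | Nat.card (𝓜.A ⧸ I) = N}.Finite := by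
  have hfin : Set.Finite ({a : 𝓜.A | a ≠ 0 ∧ (a : K) ∈ V 𝓜 N}) := by
    have h1 : Set.Finite ((fi (1 : FractionalIdeal 𝓜.A⁰ K) ⊓ V 𝓜 N : AddSubgroup K) : Set K) :=
      finite_fi_one 𝓜 N
    refine Set.Finite.of_finite_image (f := fun a : 𝓜.A => (a : K))
      (h1.subset ?_) (fun x _ y _ h => Subtype.ext h)
    rintro _ ⟨a, ha, rfl⟩
    exact ⟨mem_fi_one.2 a.2, ha.2⟩
  have h2 : (⋃ a ∈ {a : 𝓜.A | a ≠ 0 ∧ (a : K) ∈ V 𝓜 N}, {I : Ideal 𝓜.A | a ∈ I}).Finite :=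
    hfin.biUnion (fun a ha => finite_ideals_mem a ha.1)
  refine h2.subset ?_
  intro I hI
  have hI' : Nat.card (𝓜.A ⧸ I) = N := hI
  rw [Set.mem_iUnion₂]
  have h3 := card_fi_one_large 𝓜 N
  obtain ⟨z, hz0, hzI, hzV⟩ := exists_ne_zero_of_card (fi (I : FractionalIdeal 𝓜.A⁰ K))
    (fi (1 : FractionalIdeal 𝓜.A⁰ K)) (V 𝓜 N) (by rw [relIndex_fi_one, hI']; exact hN)
    (by rw [relIndex_fi_one, hI']; exact h3)
  rw [mem_fi, FractionalIdeal.mem_coeIdeal] at hzI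
  obtain ⟨a, haI, rfl⟩ := hzI
  refine ⟨a, ⟨?_, hzV⟩, haI⟩
  rintro rfl
  exact hz0 (map_zero _)

theorem mul_coe_le (J : FractionalIdeal 𝓜.A⁰ K) (Z : Ideal 𝓜.A) :
    J * (Z : FractionalIdeal 𝓜.A⁰ K) ≤ J := by
  calc J * (Z : FractionalIdeal 𝓜.A⁰ K) ≤ J * 1 := by
        gcongr
        exact FractionalIdeal.coeIdeal_le_one
    _ = J := mul_one J

theorem relIndex_inv (Y : Ideal 𝓜.A) (hY : Y ≠ ⊥) :
    (fi (1 : FractionalIdeal 𝓜.A⁰ K)).relIndex (fi (Y : FractionalIdeal 𝓜.A⁰ K)⁻¹) =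
      Nat.card (𝓜.A ⧸ Y) := by
  have hY' : (Y : FractionalIdeal 𝓜.A⁰ K) ≠ 0 := FractionalIdeal.coeIdeal_ne_zero.2 hY
  have := relIndex_fi_mul finite_quotient (Y : FractionalIdeal 𝓜.A⁰ K)⁻¹ (inv_ne_zero hY') Y hY
  rwa [inv_mul_cancel₀ hY'] at this

theorem smul_mem_fi {J : FractionalIdeal 𝓜.A⁰ K} {z b : K} (hz : z ∈ fi J)
    (hb : b ∈ fi (1 : FractionalIdeal 𝓜.A⁰ K)) : z * b ∈ fi J := by
  rw [mem_fi_one] at hb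
  have : z * b = (⟨b, hb⟩ : 𝓜.A) • z := by
    rw [Subring.smul_def]; simp [mul_comm]
  rw [this, mem_fi]
  exact (J : Submodule 𝓜.A K).smul_mem _ hz

/-- Riemann's theorem -/
theorem riemann (𝓜 : Model K) (m : ℕ) : ∃ c : ℕ, ∀ Z Y : Ideal 𝓜.A, Z ≠ ⊥ → Y ≠ ⊥ →
    Nat.card (𝓜.A ⧸ Z) * c < Nat.card (𝓜.A ⧸ Y) →
    fi ((Y : FractionalIdeal 𝓜.A⁰ K)⁻¹ * (Z : FractionalIdeal 𝓜.A⁰ K)) ⊔ V 𝓜 (-m) = ⊤ := by
  obtain ⟨N, hN⟩ := cov_one 𝓜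
  refine ⟨(fi (1 : FractionalIdeal 𝓜.A⁰ K) ⊔ V 𝓜 (-m - N)).index, ?_⟩
  intro Z Y hZ hY hlt
  have hY' : (Y : FractionalIdeal 𝓜.A⁰ K) ≠ 0 := FractionalIdeal.coeIdeal_ne_zero.2 hY
  have hYi : (Y : FractionalIdeal 𝓜.A⁰ K)⁻¹ ≠ 0 := inv_ne_zero hY'
  have h1Y : (1 : FractionalIdeal 𝓜.A⁰ K) ≤ (Y : FractionalIdeal 𝓜.A⁰ K)⁻¹ := by
    conv_lhs => rw [← inv_mul_cancel₀ hY']
    exact mul_coe_le _ _
  have h2 := relIndex_dvd_card_inf (fi (1 : FractionalIdeal 𝓜.A⁰ K))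
    (fi (Y : FractionalIdeal 𝓜.A⁰ K)⁻¹) (V 𝓜 (-m - N)) (fi_mono h1Y)
  rw [relIndex_inv Y hY] at h2
  have hf := finite_fi (Y : FractionalIdeal 𝓜.A⁰ K)⁻¹ (-m - N)
  have hpos : 0 < Nat.card ↥(fi (Y : FractionalIdeal 𝓜.A⁰ K)⁻¹ ⊓ V 𝓜 (-m - N)) := Nat.card_pos
  have hidx := index_ne_zero (𝓜 := 𝓜) (-m - N)
  have h3 := Nat.le_of_dvd (Nat.mul_pos hpos (Nat.pos_of_ne_zero hidx)) h2
  have h4 : Nat.card (𝓜.A ⧸ Z) < Nat.card ↥(fi (Y : FractionalIdeal 𝓜.A⁰ K)⁻¹ ⊓ V 𝓜 (-m - N)) := by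
    have := lt_of_lt_of_le hlt h3
    exact lt_of_mul_lt_mul_right this (Nat.zero_le _)
  have hZf := finite_quotient Z hZ
  have hZpos : 0 < Nat.card (𝓜.A ⧸ Z) := Nat.card_pos
  have hrel := relIndex_fi_mul finite_quotient (Y : FractionalIdeal 𝓜.A⁰ K)⁻¹ hYi Z hZ
  obtain ⟨z, hz0, hzJ, hzV⟩ := exists_ne_zero_of_card
    (fi ((Y : FractionalIdeal 𝓜.A⁰ K)⁻¹ * (Z : FractionalIdeal 𝓜.A⁰ K)))
    (fi (Y : FractionalIdeal 𝓜.A⁰ K)⁻¹) (V 𝓜 (-m - N)) (by rw [hrel]; omega) (by rw [hrel]; exact h4)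
  rw [eq_top_iff]
  intro w _
  have h5 : z⁻¹ * w ∈ fi (1 : FractionalIdeal 𝓜.A⁰ K) ⊔ V 𝓜 N := by rw [hN]; trivial
  rw [AddSubgroup.mem_sup] at h5 ⊢
  obtain ⟨b, hb, v, hv, hbv⟩ := h5
  refine ⟨z * b, smul_mem_fi hzJ hb, z * v, ?_, ?_⟩
  · have := mul_mem_V hzV hv
    rwa [sub_add_cancel] at this
  · rw [← mul_add, hbv, ← mul_assoc, mul_inv_cancel₀ hz0, one_mul]

theorem card_inf_eq (n : ℤ) (Z Y Z' Y' : Ideal 𝓜.A) (hZ : Z ≠ ⊥) (hY : Y ≠ ⊥) (hZ' : Z' ≠ ⊥)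
    (hY' : Y' ≠ ⊥)
    (h : fi ((Y : FractionalIdeal 𝓜.A⁰ K)⁻¹ * (Z : FractionalIdeal 𝓜.A⁰ K)) ⊔ V 𝓜 n = ⊤)
    (h' : fi ((Y' : FractionalIdeal 𝓜.A⁰ K)⁻¹ * (Z' : FractionalIdeal 𝓜.A⁰ K)) ⊔ V 𝓜 n = ⊤)
    (hcard : Nat.card (𝓜.A ⧸ Z') * Nat.card (𝓜.A ⧸ Y) = Nat.card (𝓜.A ⧸ Z) * Nat.card (𝓜.A ⧸ Y')) :
    Nat.card ↥(fi ((Y : FractionalIdeal 𝓜.A⁰ K)⁻¹ * (Z : FractionalIdeal 𝓜.A⁰ K)) ⊓ V 𝓜 n) =
    Nat.card ↥(fi ((Y' : FractionalIdeal 𝓜.A⁰ K)⁻¹ * (Z' : FractionalIdeal 𝓜.A⁰ K)) ⊓ V 𝓜 n) := by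
  have hY0 : (Y : FractionalIdeal 𝓜.A⁰ K) ≠ 0 := FractionalIdeal.coeIdeal_ne_zero.2 hY
  have hY0' : (Y' : FractionalIdeal 𝓜.A⁰ K) ≠ 0 := FractionalIdeal.coeIdeal_ne_zero.2 hY'
  set J2 : FractionalIdeal 𝓜.A⁰ K := (Y : FractionalIdeal 𝓜.A⁰ K)⁻¹ * (Y' : FractionalIdeal 𝓜.A⁰ K)⁻¹
    with hJ2
  have hJ2ne : J2 ≠ 0 := mul_ne_zero (inv_ne_zero hY0) (inv_ne_zero hY0')
  have e1 : (Y : FractionalIdeal 𝓜.A⁰ K)⁻¹ * (Z : FractionalIdeal 𝓜.A⁰ K) =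
      J2 * ((Z * Y' : Ideal 𝓜.A) : FractionalIdeal 𝓜.A⁰ K) := by
    rw [hJ2, FractionalIdeal.coeIdeal_mul]
    field_simp
  have e2 : (Y' : FractionalIdeal 𝓜.A⁰ K)⁻¹ * (Z' : FractionalIdeal 𝓜.A⁰ K) =
      J2 * ((Z' * Y : Ideal 𝓜.A) : FractionalIdeal 𝓜.A⁰ K) := by
    rw [hJ2, FractionalIdeal.coeIdeal_mul]
    field_simp
  rw [e1] at h ⊢
  rw [e2] at h' ⊢
  have c1 := card_inf_of_sup_eq_top _ (fi J2) (V 𝓜 n) (fi_mono (mul_coe_le _ _)) h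
  have c2 := card_inf_of_sup_eq_top _ (fi J2) (V 𝓜 n) (fi_mono (mul_coe_le _ _)) h'
  have hZY : Z * Y' ≠ ⊥ := mul_ne_zero hZ hY'
  have hZY' : Z' * Y ≠ ⊥ := mul_ne_zero hZ' hY
  rw [relIndex_fi_mul finite_quotient J2 hJ2ne (Z * Y') hZY] at c1
  rw [relIndex_fi_mul finite_quotient J2 hJ2ne (Z' * Y) hZY', card_mul _ _ hZ' hY, hcard,
    ← card_mul _ _ hZ hY', c1] at c2
  have := finite_quotient _ hZY
  have hpos : 0 < Nat.card (𝓜.A ⧸ Z * Y') := Nat.card_pos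
  exact Nat.eq_of_mul_eq_mul_right hpos c2

theorem t_not_mem (𝓜 : Model K) : 𝓜.t ∉ 𝓜.O := by
  intro h
  have h1 := finite_fi_one 𝓜 0
  have : Infinite ↥(fi (1 : FractionalIdeal 𝓜.A⁰ K) ⊓ V 𝓜 0) := by
    refine Infinite.of_injective (fun N : ℕ => (⟨𝓜.t ^ N, mem_fi_one.2 (𝓜.A.pow_mem 𝓜.t_mem _),
      mem_V_zero.2 (𝓜.O.pow_mem h N)⟩ : ↥(fi (1 : FractionalIdeal 𝓜.A⁰ K) ⊓ V 𝓜 0))) ?_
    intro a b hab
    exact 𝓜.infinite (congrArg Subtype.val hab)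
  exact not_finite ↥(fi (1 : FractionalIdeal 𝓜.A⁰ K) ⊓ V 𝓜 0)

theorem one_add_unit (m : ℕ) (hm : 1 ≤ m) (g : K) (hg : g - 1 ∈ V 𝓜 (-m)) :
    g ≠ 0 ∧ g ∈ V 𝓜 0 ∧ g⁻¹ ∈ V 𝓜 0 ∧ g⁻¹ - 1 ∈ V 𝓜 (-m) := by
  have h1 : g - 1 ∈ V 𝓜 (-1) := V_mono (by omega) hg
  have hg0 : g ≠ 0 := by
    rintro rfl
    have h2 : (-1 : K) * 𝓜.t ∈ 𝓜.O := by
      have := mem_V.1 h1
      simpa using this
    have h3 := 𝓜.O.neg_mem h2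
    apply t_not_mem 𝓜
    simpa using h3
  have hgV : g ∈ V 𝓜 0 := by
    have h2 : g - 1 ∈ V 𝓜 0 := V_mono (by omega) hg
    have h3 : (1 : K) ∈ V 𝓜 0 := mem_V_zero.2 𝓜.O.one_mem
    have := (V 𝓜 0).add_mem h2 h3
    simpa using this
  have hginv : g⁻¹ ∈ V 𝓜 0 := by
    rw [mem_V_zero]
    have h2 : (g - 1) * 𝓜.t ∈ 𝓜.O := by
      have := mem_V.1 h1
      simpa using this
    have h3 := 𝓜.unit _ h2
    have h4 : 1 + 𝓜.t⁻¹ * ((g - 1) * 𝓜.t) = g := by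
      field_simp [𝓜.t_ne]
      ring
    rwa [h4] at h3
  refine ⟨hg0, hgV, hginv, ?_⟩
  have : g⁻¹ - 1 = - ((g - 1) * g⁻¹) := by
    field_simp
    ring
  rw [this]
  have h5 := mul_mem_V hg hginv
  rw [add_zero] at h5
  exact (V 𝓜 (-m)).neg_mem h5

/-- product formula for functions which are units at `S` -/
theorem card_eq_of_unit (g : K) (hg0 : g ≠ 0) (hg : g ∈ V 𝓜 0) (hg' : g⁻¹ ∈ V 𝓜 0)
    (I J : Ideal 𝓜.A) (hI : I ≠ ⊥) (hJ : J ≠ ⊥)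
    (h : FractionalIdeal.spanSingleton 𝓜.A⁰ g * (I : FractionalIdeal 𝓜.A⁰ K) =
      (J : FractionalIdeal 𝓜.A⁰ K)) : Nat.card (𝓜.A ⧸ I) = Nat.card (𝓜.A ⧸ J) := by
  have hI0 : (I : FractionalIdeal 𝓜.A⁰ K) ≠ 0 := FractionalIdeal.coeIdeal_ne_zero.2 hI
  have hJ0 : (J : FractionalIdeal 𝓜.A⁰ K) ≠ 0 := FractionalIdeal.coeIdeal_ne_zero.2 hJ
  obtain ⟨N1, h1⟩ := cov_fi _ hI0
  obtain ⟨N2, h2⟩ := cov_fi _ hJ0
  set n : ℤ := ((max N1 N2 : ℕ) : ℤ) with hn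
  have hn1 : (N1 : ℤ) ≤ n := by rw [hn]; exact_mod_cast le_max_left _ _
  have hn2 : (N2 : ℤ) ≤ n := by rw [hn]; exact_mod_cast le_max_right _ _
  have c1 := card_inf_of_sup_eq_top _ (fi (1 : FractionalIdeal 𝓜.A⁰ K)) (V 𝓜 n)
    (fi_mono FractionalIdeal.coeIdeal_le_one) (h1 n hn1)
  have c2 := card_inf_of_sup_eq_top _ (fi (1 : FractionalIdeal 𝓜.A⁰ K)) (V 𝓜 n)
    (fi_mono FractionalIdeal.coeIdeal_le_one) (h2 n hn2)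
  rw [relIndex_fi_one] at c1 c2
  have hmap : (fi (I : FractionalIdeal 𝓜.A⁰ K) ⊓ V 𝓜 n).map (AddMonoidHom.mulLeft g) =
      fi (J : FractionalIdeal 𝓜.A⁰ K) ⊓ V 𝓜 n := by
    rw [← h, fi_singleton_mul]
    ext x
    rw [AddSubgroup.mem_map, AddSubgroup.mem_inf, AddSubgroup.mem_map]
    constructor
    · rintro ⟨y, hy, rfl⟩
      refine ⟨⟨y, hy.1, rfl⟩, ?_⟩
      have := mul_mem_V hg hy.2
      rwa [zero_add] at this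
    · rintro ⟨⟨y, hy, rfl⟩, hx⟩
      refine ⟨y, ⟨hy, ?_⟩, rfl⟩
      have := mul_mem_V hg' hx
      rw [zero_add] at this
      have e : g⁻¹ * (AddMonoidHom.mulLeft g) y = y := by
        show g⁻¹ * (g * y) = y
        rw [← mul_assoc, inv_mul_cancel₀ hg0, one_mul]
      rwa [e] at this
  have hcard : Nat.card ↥(fi (I : FractionalIdeal 𝓜.A⁰ K) ⊓ V 𝓜 n) =
      Nat.card ↥(fi (J : FractionalIdeal 𝓜.A⁰ K) ⊓ V 𝓜 n) := by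
    rw [← hmap]
    exact Nat.card_congr (AddSubgroup.equivMapOfInjective _ _ (mulLeft_injective' hg0)).toEquiv
  have := finite_fi (J : FractionalIdeal 𝓜.A⁰ K) n
  have hpos : 0 < Nat.card ↥(fi (J : FractionalIdeal 𝓜.A⁰ K) ⊓ V 𝓜 n) := Nat.card_pos
  rw [c1, hcard] at c2
  exact Nat.eq_of_mul_eq_mul_left hpos c2

end Pool.Agent.Helper14.TaskC
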