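import Pool.Agent.Helper14.H7Model

set_option autoImplicit false

namespace Pool.Agent.Helper14.TaskC

open Pool.Agent.Helper7
open scoped nonZeroDivisors

variable {K : Type*} [Field K] {𝓜 : Model K}

theorem count_coset (J : FractionalIdeal 𝓜.A⁰ K) (n : ℤ) (h : fi J ⊔ V 𝓜 n = ⊤) :
    {g : K | g - 1 ∈ V 𝓜 n ∧ g ∈ fi J}.Finite ∧
    {g : K | g - 1 ∈ V 𝓜 n ∧ g ∈ fi J}.ncard = Nat.card ↥(fi J ⊓ V 𝓜 n) := by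
  have h1 : (1 : K) ∈ fi J ⊔ V 𝓜 n := by rw [h]; trivial
  rw [AddSubgroup.mem_sup] at h1
  obtain ⟨g0, hg0, v, hv, hgv⟩ := h1
  have hset : {g : K | g - 1 ∈ V 𝓜 n ∧ g ∈ fi J} =
      (fun x : K => g0 + x) '' ((fi J ⊓ V 𝓜 n : AddSubgroup K) : Set K) := by
    ext g
    constructor
    · rintro ⟨h1, h2⟩
      refine ⟨g - g0, ⟨(fi J).sub_mem h2 hg0, ?_⟩, by ring⟩
      have : g - g0 = (g - 1) + v := by rw [← hgv]; ring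
      rw [this]
      exact (V 𝓜 n).add_mem h1 hv
    · rintro ⟨x, hx, rfl⟩
      refine ⟨?_, (fi J).add_mem hg0 hx.1⟩
      have : g0 + x - 1 = x - v := by rw [← hgv]; ring
      show g0 + x - 1 ∈ V 𝓜 n
      rw [this]
      exact (V 𝓜 n).sub_mem hx.2 hv
  have hf : Set.Finite ((fi J ⊓ V 𝓜 n : AddSubgroup K) : Set K) := finite_fi J n
  rw [hset]
  refine ⟨hf.image _, ?_⟩
  rw [Set.ncard_image_of_injective _ (add_right_injective g0)]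
  rfl

theorem step (m : ℕ) (hm : 1 ≤ m) (I₁ I₂ I : Ideal 𝓜.A) (h₁ : I₁ ≠ ⊥) (h₂ : I₂ ≠ ⊥)
    (hcard : Nat.card (𝓜.A ⧸ I₁) = Nat.card (𝓜.A ⧸ I₂)) (hI : I ≠ ⊥) (g : K)
    (hg : g - 1 ∈ V 𝓜 (-m))
    (hgJ : g ∈ fi (((I₁ * I : Ideal 𝓜.A) : FractionalIdeal 𝓜.A⁰ K)⁻¹ * (I₂ : FractionalIdeal 𝓜.A⁰ K))) :
    ∃ I' : Ideal 𝓜.A, I' ≠ ⊥ ∧ Nat.card (𝓜.A ⧸ I') = Nat.card (𝓜.A ⧸ I) ∧
      FractionalIdeal.spanSingleton 𝓜.A⁰ g * ((I₁ * I : Ideal 𝓜.A) : FractionalIdeal 𝓜.A⁰ K) =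
        ((I' * I₂ : Ideal 𝓜.A) : FractionalIdeal 𝓜.A⁰ K) ∧
      g⁻¹ - 1 ∈ V 𝓜 (-m) ∧
      g⁻¹ ∈ fi (((I₂ * I' : Ideal 𝓜.A) : FractionalIdeal 𝓜.A⁰ K)⁻¹ *
        (I₁ : FractionalIdeal 𝓜.A⁰ K)) ∧
      FractionalIdeal.spanSingleton 𝓜.A⁰ g⁻¹ *
        ((I₂ * I' : Ideal 𝓜.A) : FractionalIdeal 𝓜.A⁰ K) =
        ((I * I₁ : Ideal 𝓜.A) : FractionalIdeal 𝓜.A⁰ K) := by
  obtain ⟨hg0, hgV, hgV', hginv⟩ := one_add_unit m hm g hg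
  have h₁0 : (I₁ : FractionalIdeal 𝓜.A⁰ K) ≠ 0 := FractionalIdeal.coeIdeal_ne_zero.2 h₁
  have h₂0 : (I₂ : FractionalIdeal 𝓜.A⁰ K) ≠ 0 := FractionalIdeal.coeIdeal_ne_zero.2 h₂
  have hI0 : (I : FractionalIdeal 𝓜.A⁰ K) ≠ 0 := FractionalIdeal.coeIdeal_ne_zero.2 hI
  set s := FractionalIdeal.spanSingleton 𝓜.A⁰ g with hs
  have hs0 : s ≠ 0 := by rw [hs, Ne, FractionalIdeal.spanSingleton_eq_zero_iff]; exact hg0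
  have hsinv : FractionalIdeal.spanSingleton 𝓜.A⁰ g⁻¹ = s⁻¹ := by
    rw [hs, FractionalIdeal.spanSingleton_inv]
  have hle : s ≤ ((I₁ * I : Ideal 𝓜.A) : FractionalIdeal 𝓜.A⁰ K)⁻¹ *
      (I₂ : FractionalIdeal 𝓜.A⁰ K) := by
    rw [hs, FractionalIdeal.spanSingleton_le_iff_mem]; exact hgJ
  have hle1 : s * ((I₁ * I : Ideal 𝓜.A) : FractionalIdeal 𝓜.A⁰ K) *
      (I₂ : FractionalIdeal 𝓜.A⁰ K)⁻¹ ≤ 1 := by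
    calc s * ((I₁ * I : Ideal 𝓜.A) : FractionalIdeal 𝓜.A⁰ K) * (I₂ : FractionalIdeal 𝓜.A⁰ K)⁻¹
        ≤ (((I₁ * I : Ideal 𝓜.A) : FractionalIdeal 𝓜.A⁰ K)⁻¹ * (I₂ : FractionalIdeal 𝓜.A⁰ K)) *
          ((I₁ * I : Ideal 𝓜.A) : FractionalIdeal 𝓜.A⁰ K) *
          (I₂ : FractionalIdeal 𝓜.A⁰ K)⁻¹ := by gcongr
      _ = 1 := by
        rw [FractionalIdeal.coeIdeal_mul]
        field_simp
  obtain ⟨I', hI'⟩ := FractionalIdeal.le_one_iff_exists_coeIdeal.1 hle1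
  have hI'0 : (I' : FractionalIdeal 𝓜.A⁰ K) ≠ 0 := by
    rw [hI', FractionalIdeal.coeIdeal_mul]
    exact mul_ne_zero (mul_ne_zero hs0 (mul_ne_zero h₁0 hI0)) (inv_ne_zero h₂0)
  have hI'b : I' ≠ ⊥ := FractionalIdeal.coeIdeal_ne_zero.1 hI'0
  have e1 : s * ((I₁ * I : Ideal 𝓜.A) : FractionalIdeal 𝓜.A⁰ K) =
        ((I' * I₂ : Ideal 𝓜.A) : FractionalIdeal 𝓜.A⁰ K) := by
    rw [FractionalIdeal.coeIdeal_mul I', hI', mul_assoc, inv_mul_cancel₀ h₂0, mul_one]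
  have e2 : s⁻¹ * ((I₂ * I' : Ideal 𝓜.A) : FractionalIdeal 𝓜.A⁰ K) =
        ((I * I₁ : Ideal 𝓜.A) : FractionalIdeal 𝓜.A⁰ K) := by
    rw [mul_comm I₂ I', ← e1, ← mul_assoc, inv_mul_cancel₀ hs0, one_mul, mul_comm I₁ I]
  refine ⟨I', hI'b, ?_, e1, hginv, ?_, ?_⟩
  · have h := card_eq_of_unit g hg0 hgV hgV' (I₁ * I) (I' * I₂) (mul_ne_zero h₁ hI)
      (mul_ne_zero hI'b h₂) e1
    rw [card_mul _ _ h₁ hI, card_mul _ _ hI'b h₂, ← hcard, mul_comm] at h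
    have := finite_quotient _ h₁
    have hpos : 0 < Nat.card (𝓜.A ⧸ I₁) := Nat.card_pos
    exact (Nat.eq_of_mul_eq_mul_right hpos h).symm
  · have h3 : s⁻¹ ≤ ((I₂ * I' : Ideal 𝓜.A) : FractionalIdeal 𝓜.A⁰ K)⁻¹ *
        (I₁ : FractionalIdeal 𝓜.A⁰ K) := by
      have h4 : s⁻¹ = ((I₂ * I' : Ideal 𝓜.A) : FractionalIdeal 𝓜.A⁰ K)⁻¹ *
        (I₁ : FractionalIdeal 𝓜.A⁰ K) * (I : FractionalIdeal 𝓜.A⁰ K) := by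
        have h5 : ((I₂ * I' : Ideal 𝓜.A) : FractionalIdeal 𝓜.A⁰ K) ≠ 0 :=
          FractionalIdeal.coeIdeal_ne_zero.2 (mul_ne_zero h₂ hI'b)
        have h6 := congrArg (fun X => ((I₂ * I' : Ideal 𝓜.A) : FractionalIdeal 𝓜.A⁰ K)⁻¹ * X) e2
        beta_reduce at h6
        rw [mul_comm s⁻¹, ← mul_assoc, inv_mul_cancel₀ h5, one_mul, FractionalIdeal.coeIdeal_mul I]
          at h6
        rw [h6]; ring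
      rw [h4]
      exact mul_coe_le _ _
    rw [← hsinv, FractionalIdeal.spanSingleton_le_iff_mem] at h3
    exact h3
  · rw [hsinv]; exact e2

theorem ne_bot_of_card' {I : Ideal 𝓜.A} (hI : Nat.card (𝓜.A ⧸ I) ≠ 0) : I ≠ ⊥ := by
  have := infinite_A 𝓜
  exact ne_bot_of_card hI

theorem double_count {E : Type*} [Field E] (χ : Ideal 𝓜.A →* E) (m : ℕ) (hm : 1 ≤ m)
    (hrec : ∀ (g : K) (I J : Ideal 𝓜.A), g - 1 ∈ V 𝓜 (-m) → I ≠ ⊥ → J ≠ ⊥ →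
      FractionalIdeal.spanSingleton 𝓜.A⁰ g * (I : FractionalIdeal 𝓜.A⁰ K) =
      (J : FractionalIdeal 𝓜.A⁰ K) → χ I = χ J)
    (I₁ I₂ : Ideal 𝓜.A) (h₁ : I₁ ≠ ⊥) (h₂ : I₂ ≠ ⊥)
    (hcard : Nat.card (𝓜.A ⧸ I₁) = Nat.card (𝓜.A ⧸ I₂)) (N : ℕ) (hN : N ≠ 0)
    (S : Finset (Ideal 𝓜.A)) (hS : ∀ I, I ∈ S ↔ Nat.card (𝓜.A ⧸ I) = N) (C : ℕ)
    (hC : ∀ I ∈ S, fi (((I₁ * I : Ideal 𝓜.A) : FractionalIdeal 𝓜.A⁰ K)⁻¹ *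
      (I₂ : FractionalIdeal 𝓜.A⁰ K)) ⊔ V 𝓜 (-m) = ⊤ ∧ Nat.card ↥(fi (((I₁ * I : Ideal 𝓜.A) :
      FractionalIdeal 𝓜.A⁰ K)⁻¹ * (I₂ : FractionalIdeal 𝓜.A⁰ K)) ⊓ V 𝓜 (-m)) = C)
    (hC' : ∀ I ∈ S, fi (((I₂ * I : Ideal 𝓜.A) : FractionalIdeal 𝓜.A⁰ K)⁻¹ *
      (I₁ : FractionalIdeal 𝓜.A⁰ K)) ⊔ V 𝓜 (-m) = ⊤ ∧ Nat.card ↥(fi (((I₂ * I : Ideal 𝓜.A) :
      FractionalIdeal 𝓜.A⁰ K)⁻¹ * (I₁ : FractionalIdeal 𝓜.A⁰ K)) ⊓ V 𝓜 (-m)) = C) :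
    (C : E) * (∑ I ∈ S, χ I) * χ I₁ = (C : E) * (∑ I ∈ S, χ I) * χ I₂ := by
  classical
  -- the finite sets of multipliers
  have key : ∀ I₁ I₂ : Ideal 𝓜.A, (∀ I ∈ S, fi (((I₁ * I : Ideal 𝓜.A) : FractionalIdeal 𝓜.A⁰ K)⁻¹ *
      (I₂ : FractionalIdeal 𝓜.A⁰ K)) ⊔ V 𝓜 (-m) = ⊤ ∧ Nat.card ↥(fi (((I₁ * I : Ideal 𝓜.A) :
      FractionalIdeal 𝓜.A⁰ K)⁻¹ * (I₂ : FractionalIdeal 𝓜.A⁰ K)) ⊓ V 𝓜 (-m)) = C) →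
      ∃ G : Ideal 𝓜.A → Finset K, ∀ I ∈ S, (∀ g, g ∈ G I ↔ g - 1 ∈ V 𝓜 (-m) ∧
        g ∈ fi (((I₁ * I : Ideal 𝓜.A) : FractionalIdeal 𝓜.A⁰ K)⁻¹ *
      (I₂ : FractionalIdeal 𝓜.A⁰ K))) ∧ (G I).card = C := by
    intro I₁ I₂ h
    refine ⟨fun I => if hI : I ∈ S then (count_coset _ _ (h I hI).1).1.toFinset else ∅, ?_⟩
    intro I hI
    beta_reduce
    rw [dif_pos hI]
    refine ⟨fun g => ?_, ?_⟩
    · rw [Set.Finite.mem_toFinset]; rfl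
    · rw [← Set.ncard_eq_toFinset_card _ (count_coset _ _ (h I hI).1).1,
        (count_coset _ _ (h I hI).1).2, (h I hI).2]
  obtain ⟨G, hG⟩ := key I₁ I₂ hC
  obtain ⟨G', hG'⟩ := key I₂ I₁ hC'
  have hL : (C : E) * (∑ I ∈ S, χ I) * χ I₁ = ∑ x ∈ S.sigma G, χ x.1 * χ I₁ := by
    rw [Finset.sum_sigma, Finset.mul_sum, Finset.sum_mul]
    refine Finset.sum_congr rfl ?_
    intro I hI
    simp only []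
    rw [Finset.sum_const, (hG I hI).2, nsmul_eq_mul]; ring
  have hR : (C : E) * (∑ I ∈ S, χ I) * χ I₂ = ∑ x ∈ S.sigma G', χ x.1 * χ I₂ := by
    rw [Finset.sum_sigma, Finset.mul_sum, Finset.sum_mul]
    refine Finset.sum_congr rfl ?_
    intro I hI
    simp only []
    rw [Finset.sum_const, (hG' I hI).2, nsmul_eq_mul]; ring
  rw [hL, hR]
  have hSne : ∀ I ∈ S, I ≠ ⊥ := by
    intro I hI
    apply ne_bot_of_card'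
    rw [(hS I).1 hI]; exact hN
  have ex : ∀ x ∈ S.sigma G, ∃ I' : Ideal 𝓜.A, I' ≠ ⊥ ∧ Nat.card (𝓜.A ⧸ I') = Nat.card (𝓜.A ⧸ x.1) ∧
      FractionalIdeal.spanSingleton 𝓜.A⁰ x.2 * ((I₁ * x.1 : Ideal 𝓜.A) : FractionalIdeal 𝓜.A⁰ K) =
        ((I' * I₂ : Ideal 𝓜.A) : FractionalIdeal 𝓜.A⁰ K) ∧
      (x.2)⁻¹ - 1 ∈ V 𝓜 (-m) ∧
      (x.2)⁻¹ ∈ fi (((I₂ * I' : Ideal 𝓜.A) : FractionalIdeal 𝓜.A⁰ K)⁻¹ *
        (I₁ : FractionalIdeal 𝓜.A⁰ K)) ∧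
      FractionalIdeal.spanSingleton 𝓜.A⁰ (x.2)⁻¹ *
        ((I₂ * I' : Ideal 𝓜.A) : FractionalIdeal 𝓜.A⁰ K) =
        ((x.1 * I₁ : Ideal 𝓜.A) : FractionalIdeal 𝓜.A⁰ K) := by
    intro x hx
    rw [Finset.mem_sigma] at hx
    have hg := ((hG x.1 hx.1).1 x.2).1 hx.2
    exact step m hm I₁ I₂ x.1 h₁ h₂ hcard (hSne _ hx.1) x.2 hg.1 hg.2
  refine Finset.sum_bij (fun x hx => ⟨Classical.choose (ex x hx), (x.2)⁻¹⟩) ?_ ?_ ?_ ?_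
  · intro x hx
    obtain ⟨hc1, hc2, hc3, hc4, hc5, hc6⟩ := Classical.choose_spec (ex x hx)
    have hx' := Finset.mem_sigma.1 hx
    have hmem : Classical.choose (ex x hx) ∈ S := by
      rw [hS, hc2, ← hS]; exact hx'.1
    rw [Finset.mem_sigma]
    exact ⟨hmem, ((hG' _ hmem).1 _).2 ⟨hc4, hc5⟩⟩
  · intro x hx y hy hxy
    obtain ⟨hc1, hc2, hc3, hc4, hc5, hc6⟩ := Classical.choose_spec (ex x hx)
    obtain ⟨hd1, hd2, hd3, hd4, hd5, hd6⟩ := Classical.choose_spec (ex y hy)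
    have hx' := Finset.mem_sigma.1 hx
    have hy' := Finset.mem_sigma.1 hy
    simp only [Sigma.mk.injEq, heq_eq_eq, inv_inj] at hxy
    obtain ⟨e1, e2⟩ := hxy
    have e3 : ((x.1 * I₁ : Ideal 𝓜.A) : FractionalIdeal 𝓜.A⁰ K) =
        ((y.1 * I₁ : Ideal 𝓜.A) : FractionalIdeal 𝓜.A⁰ K) := by
      rw [← hc6, ← hd6, e1, e2]
    have e4 : x.1 = y.1 :=
      mul_right_cancel₀ h₁ (FractionalIdeal.coeIdeal_injective e3)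
    obtain ⟨x1, x2⟩ := x
    obtain ⟨y1, y2⟩ := y
    simp only at e2 e4
    subst e2; subst e4; rfl
  · intro y hy
    have hy' := Finset.mem_sigma.1 hy
    have hg := ((hG' y.1 hy'.1).1 y.2).1 hy'.2
    obtain ⟨I, hc1, hc2, hc3, hc4, hc5, hc6⟩ := step m hm I₂ I₁ y.1 h₂ h₁ hcard.symm
      (hSne _ hy'.1) y.2 hg.1 hg.2
    have hmem : I ∈ S := by rw [hS, hc2, ← hS]; exact hy'.1
    have hx : (⟨I, (y.2)⁻¹⟩ : (_ : Ideal 𝓜.A) × K) ∈ S.sigma G := by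
      rw [Finset.mem_sigma]
      exact ⟨hmem, ((hG _ hmem).1 _).2 ⟨hc4, hc5⟩⟩
    refine ⟨⟨I, (y.2)⁻¹⟩, hx, ?_⟩
    obtain ⟨hd1, hd2, hd3, hd4, hd5, hd6⟩ := Classical.choose_spec (ex _ hx)
    have e1 : Classical.choose (ex _ hx) = y.1 := by
      have e3 : ((Classical.choose (ex _ hx) * I₂ : Ideal 𝓜.A) : FractionalIdeal 𝓜.A⁰ K) =
        ((y.1 * I₂ : Ideal 𝓜.A) : FractionalIdeal 𝓜.A⁰ K) := by
        rw [← hd3, ← hc6]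
      exact mul_right_cancel₀ h₂ (FractionalIdeal.coeIdeal_injective e3)
    refine Sigma.ext e1 ?_
    simp only [inv_inv, heq_eq_eq]
  · intro x hx
    obtain ⟨hc1, hc2, hc3, hc4, hc5, hc6⟩ := Classical.choose_spec (ex x hx)
    have hx' := Finset.mem_sigma.1 hx
    have hg := ((hG x.1 hx'.1).1 x.2).1 hx'.2
    have := hrec x.2 (I₁ * x.1) (Classical.choose (ex x hx) * I₂) hg.1
      (mul_ne_zero h₁ (hSne _ hx'.1)) (mul_ne_zero hc1 h₂) hc3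
    rw [map_mul, map_mul] at this
    simp only []
    rw [← this, mul_comm]

theorem sum_eq_zero (𝓜 : Model K) {E : Type*} [Field E] [CharZero E]
    (χ : Ideal 𝓜.A →* E)
    (m : ℕ) (hrec : ∀ (g : K) (I J : Ideal 𝓜.A), (g - 1) * 𝓜.t ^ m ∈ 𝓜.O → g ≠ 0 → I ≠ ⊥ → J ≠ ⊥ →
      (∀ x : K, (∃ y ∈ J, (y : K) = g * x) ↔ ∃ y ∈ I, (y : K) = x) → χ I = χ J)
    (I₁ I₂ : Ideal 𝓜.A) (h₁ : I₁ ≠ ⊥) (h₂ : I₂ ≠ ⊥)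
    (hcard : Nat.card (𝓜.A ⧸ I₁) = Nat.card (𝓜.A ⧸ I₂)) (hne : χ I₁ ≠ χ I₂) :
    ∃ N₀ : ℕ, ∀ N ≥ N₀, ∑ᶠ I ∈ {I : Ideal 𝓜.A | Nat.card (𝓜.A ⧸ I) = N}, χ I = 0 := by
  classical
  obtain ⟨c, hc⟩ := riemann 𝓜 (m + 1)
  have hf1 := finite_quotient _ h₁
  have hpos : 0 < Nat.card (𝓜.A ⧸ I₁) := Nat.card_pos
  refine ⟨Nat.card (𝓜.A ⧸ I₁) * c + 1, fun N hN => ?_⟩
  have hN0 : N ≠ 0 := by omega
  have hfin := finite_ideals 𝓜 N hN0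
  rw [finsum_mem_eq_finite_toFinset_sum _ hfin]
  set S := hfin.toFinset with hSdef
  have hS : ∀ I, I ∈ S ↔ Nat.card (𝓜.A ⧸ I) = N := by
    intro I; rw [hSdef, Set.Finite.mem_toFinset]; rfl
  rcases S.eq_empty_or_nonempty with hS0 | ⟨I0, hI0⟩
  · rw [hS0, Finset.sum_empty]
  have hSne : ∀ I ∈ S, I ≠ ⊥ := by
    intro I hI
    apply ne_bot_of_card'
    rw [(hS I).1 hI]; exact hN0
  have hsup : ∀ X Y : Ideal 𝓜.A, X ≠ ⊥ → Y ≠ ⊥ →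
      Nat.card (𝓜.A ⧸ X) = Nat.card (𝓜.A ⧸ I₁) → Nat.card (𝓜.A ⧸ Y) = Nat.card (𝓜.A ⧸ I₁) →
      ∀ I ∈ S, fi (((X * I : Ideal 𝓜.A) : FractionalIdeal 𝓜.A⁰ K)⁻¹ *
      (Y : FractionalIdeal 𝓜.A⁰ K)) ⊔ V 𝓜 (-((m + 1 : ℕ) : ℤ)) = ⊤ := by
    intro X Y hX hY hXc hYc I hI
    refine hc Y (X * I) hY (mul_ne_zero hX (hSne I hI)) ?_
    rw [card_mul _ _ hX (hSne I hI), hXc, hYc, (hS I).1 hI]
    nlinarith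
  have hcd : ∀ X Y X' Y' : Ideal 𝓜.A, X ≠ ⊥ → Y ≠ ⊥ → X' ≠ ⊥ → Y' ≠ ⊥ →
      Nat.card (𝓜.A ⧸ X) = Nat.card (𝓜.A ⧸ I₁) → Nat.card (𝓜.A ⧸ Y) = Nat.card (𝓜.A ⧸ I₁) →
      Nat.card (𝓜.A ⧸ X') = Nat.card (𝓜.A ⧸ I₁) → Nat.card (𝓜.A ⧸ Y') = Nat.card (𝓜.A ⧸ I₁) →
      ∀ I ∈ S, ∀ I' ∈ S, Nat.card ↥(fi (((X * I : Ideal 𝓜.A) : FractionalIdeal 𝓜.A⁰ K)⁻¹ *
      (Y : FractionalIdeal 𝓜.A⁰ K)) ⊓ V 𝓜 (-((m + 1 : ℕ) : ℤ))) =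
      Nat.card ↥(fi (((X' * I' : Ideal 𝓜.A) : FractionalIdeal 𝓜.A⁰ K)⁻¹ *
      (Y' : FractionalIdeal 𝓜.A⁰ K)) ⊓ V 𝓜 (-((m + 1 : ℕ) : ℤ))) := by
    intro X Y X' Y' hX hY hX' hY' cX cY cX' cY' I hI I' hI'
    refine card_inf_eq _ Y (X * I) Y' (X' * I') hY (mul_ne_zero hX (hSne I hI)) hY'
      (mul_ne_zero hX' (hSne I' hI')) (hsup X Y hX hY cX cY I hI) (hsup X' Y' hX' hY' cX' cY' I' hI') ?_
    rw [card_mul _ _ hX (hSne I hI), card_mul _ _ hX' (hSne I' hI'), cX, cY, cX', cY',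
      (hS I).1 hI, (hS I').1 hI']
  have hrec' : ∀ (g : K) (I J : Ideal 𝓜.A), g - 1 ∈ V 𝓜 (-((m + 1 : ℕ) : ℤ)) → I ≠ ⊥ → J ≠ ⊥ →
      FractionalIdeal.spanSingleton 𝓜.A⁰ g * (I : FractionalIdeal 𝓜.A⁰ K) =
      (J : FractionalIdeal 𝓜.A⁰ K) → χ I = χ J := by
    intro g I J hg hI hJ hIJ
    obtain ⟨hg0, -, -, -⟩ := one_add_unit (𝓜 := 𝓜) (m + 1) (by omega) g hg
    refine hrec g I J ?_ hg0 hI hJ ?_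
    · have h1 : g - 1 ∈ V 𝓜 (-(m : ℤ)) := V_mono (by push_cast; omega) hg
      rw [mem_V, neg_neg, zpow_natCast] at h1
      exact h1
    · intro x
      have hJm : (∃ y ∈ J, (y : K) = g * x) ↔ g * x ∈ (J : FractionalIdeal 𝓜.A⁰ K) := by
        rw [FractionalIdeal.mem_coeIdeal]; rfl
      have hIm : (∃ y ∈ I, (y : K) = x) ↔ x ∈ (I : FractionalIdeal 𝓜.A⁰ K) := by
        rw [FractionalIdeal.mem_coeIdeal]; rfl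
      rw [hJm, hIm, ← hIJ, FractionalIdeal.mem_singleton_mul]
      constructor
      · rintro ⟨y, hy, hxy⟩
        rwa [mul_left_cancel₀ hg0 hxy]
      · intro hx; exact ⟨x, hx, rfl⟩
  have hC := hcd I₁ I₂ I₁ I₂ h₁ h₂ h₁ h₂ rfl hcard.symm rfl hcard.symm
  have hC' := hcd I₂ I₁ I₁ I₂ h₂ h₁ h₁ h₂ hcard.symm rfl rfl hcard.symm
  have hdc := double_count χ (m + 1) (by omega) hrec' I₁ I₂ h₁ h₂ hcard N hN0 S hS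
    (Nat.card ↥(fi (((I₁ * I0 : Ideal 𝓜.A) : FractionalIdeal 𝓜.A⁰ K)⁻¹ *
      (I₂ : FractionalIdeal 𝓜.A⁰ K)) ⊓ V 𝓜 (-((m + 1 : ℕ) : ℤ))))
    (fun I hI => ⟨hsup I₁ I₂ h₁ h₂ rfl hcard.symm I hI, hC I hI I0 hI0⟩)
    (fun I hI => ⟨hsup I₂ I₁ h₂ h₁ hcard.symm rfl I hI, hC' I hI I0 hI0⟩)
  have hCpos : (Nat.card ↥(fi (((I₁ * I0 : Ideal 𝓜.A) : FractionalIdeal 𝓜.A⁰ K)⁻¹ *
      (I₂ : FractionalIdeal 𝓜.A⁰ K)) ⊓ V 𝓜 (-((m + 1 : ℕ) : ℤ))) : E) ≠ 0 := by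
    have := finite_fi (((I₁ * I0 : Ideal 𝓜.A) : FractionalIdeal 𝓜.A⁰ K)⁻¹ *
      (I₂ : FractionalIdeal 𝓜.A⁰ K)) (-((m + 1 : ℕ) : ℤ))
    exact Nat.cast_ne_zero.2 Nat.card_pos.ne'
  rw [mul_assoc, mul_assoc] at hdc
  have h3 := mul_left_cancel₀ hCpos hdc
  by_contra h4
  exact hne (mul_left_cancel₀ h4 h3)

end Pool.Agent.Helper14.TaskC

namespace Pool.Agent.Helper7

open Pool.Agent.Helper14

/-- C0. Finiteness of the set of ideals of given norm. -/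
theorem Model.finite_ideals {K : Type*} [Field K] (𝓜 : Model K) (N : ℕ) (hN : N ≠ 0) :
    {I : Ideal 𝓜.A | Nat.card (𝓜.A ⧸ I) = N}.Finite :=
  TaskC.finite_ideals 𝓜 N hN

/-- C0'. Nonzero ideals have finite index. -/
theorem Model.finite_quotient {K : Type*} [Field K] (𝓜 : Model K) (I : Ideal 𝓜.A) (hI : I ≠ ⊥) :
    Finite (𝓜.A ⧸ I) :=
  TaskC.finite_quotient I hI

theorem Model.infinite_A {K : Type*} [Field K] (𝓜 : Model K) : Infinite 𝓜.A :=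
  TaskC.infinite_A 𝓜

/-- C1. Vanishing of character sums over ideals of large norm, from a reciprocity law. -/
theorem Model.sum_eq_zero {K : Type*} [Field K] (𝓜 : Model K) {E : Type*} [Field E] [CharZero E]
    (χ : Ideal 𝓜.A →* E)
    (m : ℕ) (hrec : ∀ (g : K) (I J : Ideal 𝓜.A), (g - 1) * 𝓜.t ^ m ∈ 𝓜.O → g ≠ 0 → I ≠ ⊥ → J ≠ ⊥ →
      (∀ x : K, (∃ y ∈ J, (y : K) = g * x) ↔ ∃ y ∈ I, (y : K) = x) → χ I = χ J)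
    (I₁ I₂ : Ideal 𝓜.A) (h₁ : I₁ ≠ ⊥) (h₂ : I₂ ≠ ⊥)
    (hcard : Nat.card (𝓜.A ⧸ I₁) = Nat.card (𝓜.A ⧸ I₂)) (hne : χ I₁ ≠ χ I₂) :
    ∃ N₀ : ℕ, ∀ N ≥ N₀, ∑ᶠ I ∈ {I : Ideal 𝓜.A | Nat.card (𝓜.A ⧸ I) = N}, χ I = 0 :=
  TaskC.sum_eq_zero 𝓜 χ m hrec I₁ I₂ h₁ h₂ hcard hne

/-- C2. Logarithmic derivative of an L-series of an infinite Dedekind domain. -/
theorem logDeriv_coeff {A : Type*} [CommRing A] [IsDedekindDomain A] [Infinite A]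
    (q : ℕ) (hq : 2 ≤ q)
    (hfin : ∀ N ≠ 0, {I : Ideal A | Nat.card (A ⧸ I) = N}.Finite)
    (hpow : ∀ I : Ideal A, I ≠ ⊥ → ∃ d, Nat.card (A ⧸ I) = q ^ d)
    {E : Type*} [Field E] (χ : Ideal A →* E) (d : ℕ) :
    (d : E) * ∑ᶠ I ∈ {I : Ideal A | Nat.card (A ⧸ I) = q ^ d}, χ I =
      ∑ m ∈ Finset.Icc 1 d,
        (∑ᶠ P ∈ {P : Ideal A | P.IsPrime ∧ P ≠ ⊥ ∧ Nat.log q (Nat.card (A ⧸ P)) ∣ m},
          (Nat.log q (Nat.card (A ⧸ P)) : E) * χ P ^ (m / Nat.log q (Nat.card (A ⧸ P)))) *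
        ∑ᶠ I ∈ {I : Ideal A | Nat.card (A ⧸ I) = q ^ (d - m)}, χ I :=
  TaskC.logDeriv_coeff hq hpow hfin χ d

/-- Multiplicativity of the norm. -/
theorem card_quotient_mul_ideal {A : Type*} [CommRing A] [IsDedekindDomain A] (I J : Ideal A)
    (hI : I ≠ ⊥) (hJ : J ≠ ⊥) :
    Nat.card (A ⧸ I * J) = Nat.card (A ⧸ I) * Nat.card (A ⧸ J) :=
  TaskC.card_mul I J hI hJ

end Pool.Agent.Helper7
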