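import Pool.Agent.Helper14.H7TaskC

set_option autoImplicit false

namespace Pool.Agent.Helper14.TaskC

open Pool.Agent.Helper7
open scoped nonZeroDivisors

variable {K : Type*} [Field K] {𝓜 : Model K}

theorem card_inf_mul (n : ℤ) (Z Y Z' Y' : Ideal 𝓜.A) (hZ : Z ≠ ⊥) (hY : Y ≠ ⊥) (hZ' : Z' ≠ ⊥)
    (hY' : Y' ≠ ⊥)
    (h : fi ((Y : FractionalIdeal 𝓜.A⁰ K)⁻¹ * (Z : FractionalIdeal 𝓜.A⁰ K)) ⊔ V 𝓜 n = ⊤)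
    (h' : fi ((Y' : FractionalIdeal 𝓜.A⁰ K)⁻¹ * (Z' : FractionalIdeal 𝓜.A⁰ K)) ⊔ V 𝓜 n = ⊤) :
    Nat.card ↥(fi ((Y : FractionalIdeal 𝓜.A⁰ K)⁻¹ * (Z : FractionalIdeal 𝓜.A⁰ K)) ⊓ V 𝓜 n) *
      (Nat.card (𝓜.A ⧸ Z) * Nat.card (𝓜.A ⧸ Y')) =
    Nat.card ↥(fi ((Y' : FractionalIdeal 𝓜.A⁰ K)⁻¹ * (Z' : FractionalIdeal 𝓜.A⁰ K)) ⊓ V 𝓜 n) *
      (Nat.card (𝓜.A ⧸ Z') * Nat.card (𝓜.A ⧸ Y)) := by
  have hY0 : (Y : FractionalIdeal 𝓜.A⁰ K) ≠ 0 := FractionalIdeal.coeIdeal_ne_zero.2 hY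
  have hY0' : (Y' : FractionalIdeal 𝓜.A⁰ K) ≠ 0 := FractionalIdeal.coeIdeal_ne_zero.2 hY'
  set J2 : FractionalIdeal 𝓜.A⁰ K := (Y : FractionalIdeal 𝓜.A⁰ K)⁻¹ * (Y' : FractionalIdeal 𝓜.A⁰ K)⁻¹
    with hJ2
  have hJ2ne : J2 ≠ 0 := mul_ne_zero (inv_ne_zero hY0) (inv_ne_zero hY0')
  have e1 : (Y : FractionalIdeal 𝓜.A⁰ K)⁻¹ * (Z : FractionalIdeal 𝓜.A⁰ K) =
      J2 * ((Z * Y' : Ideal 𝓜.A) : FractionalIdeal 𝓜.A⁰ K) := by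
    rw [hJ2, FractionalIdeal.coeIdeal_mul]
    field_simp
  have e2 : (Y' : FractionalIdeal 𝓜.A⁰ K)⁻¹ * (Z' : FractionalIdeal 𝓜.A⁰ K) =
      J2 * ((Z' * Y : Ideal 𝓜.A) : FractionalIdeal 𝓜.A⁰ K) := by
    rw [hJ2, FractionalIdeal.coeIdeal_mul]
    field_simp
  rw [e1] at h ⊢
  rw [e2] at h' ⊢
  have c1 := card_inf_of_sup_eq_top _ (fi J2) (V 𝓜 n) (fi_mono (mul_coe_le _ _)) h
  have c2 := card_inf_of_sup_eq_top _ (fi J2) (V 𝓜 n) (fi_mono (mul_coe_le _ _)) h'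
  have hZY : Z * Y' ≠ ⊥ := mul_ne_zero hZ hY'
  have hZY' : Z' * Y ≠ ⊥ := mul_ne_zero hZ' hY
  rw [relIndex_fi_mul finite_quotient J2 hJ2ne (Z * Y') hZY, card_mul _ _ hZ hY'] at c1
  rw [relIndex_fi_mul finite_quotient J2 hJ2ne (Z' * Y) hZY', card_mul _ _ hZ' hY] at c2
  rw [← c1, ← c2]

theorem step_gen (m : ℕ) (hm : 1 ≤ m) (I₁ I₂ I : Ideal 𝓜.A) (h₁ : I₁ ≠ ⊥) (h₂ : I₂ ≠ ⊥)
    (hI : I ≠ ⊥) (g : K)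
    (hg : g - 1 ∈ V 𝓜 (-m))
    (hgJ : g ∈ fi (((I₁ * I : Ideal 𝓜.A) : FractionalIdeal 𝓜.A⁰ K)⁻¹ * (I₂ : FractionalIdeal 𝓜.A⁰ K))) :
    ∃ I' : Ideal 𝓜.A, I' ≠ ⊥ ∧ Nat.card (𝓜.A ⧸ I₁) * Nat.card (𝓜.A ⧸ I) =
        Nat.card (𝓜.A ⧸ I') * Nat.card (𝓜.A ⧸ I₂) ∧
      FractionalIdeal.spanSingleton 𝓜.A⁰ g * ((I₁ * I : Ideal 𝓜.A) : FractionalIdeal 𝓜.A⁰ K) =
        ((I' * I₂ : Ideal 𝓜.A) : FractionalIdeal 𝓜.A⁰ K) ∧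
      g⁻¹ - 1 ∈ V 𝓜 (-m) ∧
      g⁻¹ ∈ fi (((I₂ * I' : Ideal 𝓜.A) : FractionalIdeal 𝓜.A⁰ K)⁻¹ *
        (I₁ : FractionalIdeal 𝓜.A⁰ K)) ∧
      FractionalIdeal.spanSingleton 𝓜.A⁰ g⁻¹ *
        ((I₂ * I' : Ideal 𝓜.A) : FractionalIdeal 𝓜.A⁰ K) =
        ((I * I₁ : Ideal 𝓜.A) : FractionalIdeal 𝓜.A⁰ K) := by
  obtain ⟨hg0, hgV, hgV', hginv⟩ := one_add_unit m hm g hg
  have h₁0 : (I₁ : FractionalIdeal 𝓜.A⁰ K) ≠ 0 := FractionalIdeal.coeIdeal_ne_zero.2 h₁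
  have h₂0 : (I₂ : FractionalIdeal 𝓜.A⁰ K) ≠ 0 := FractionalIdeal.coeIdeal_ne_zero.2 h₂
  have hI0 : (I : FractionalIdeal 𝓜.A⁰ K) ≠ 0 := FractionalIdeal.coeIdeal_ne_zero.2 hI
  set s := FractionalIdeal.spanSingleton 𝓜.A⁰ g with hs
  have hs0 : s ≠ 0 := by rw [hs, Ne, FractionalIdeal.spanSingleton_eq_zero_iff]; exact hg0
  have hsinv : FractionalIdeal.spanSingleton 𝓜.A⁰ g⁻¹ = s⁻¹ := by
    rw [hs, FractionalIdeal.spanSingleton_inv]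
  have hle : s ≤ ((I₁ * I : Ideal 𝓜.A) : FractionalIdeal 𝓜.A⁰ K)⁻¹ *
      (I₂ : FractionalIdeal 𝓜.A⁰ K) := by
    rw [hs, FractionalIdeal.spanSingleton_le_iff_mem]; exact hgJ
  have hle1 : s * ((I₁ * I : Ideal 𝓜.A) : FractionalIdeal 𝓜.A⁰ K) *
      (I₂ : FractionalIdeal 𝓜.A⁰ K)⁻¹ ≤ 1 := by
    calc s * ((I₁ * I : Ideal 𝓜.A) : FractionalIdeal 𝓜.A⁰ K) * (I₂ : FractionalIdeal 𝓜.A⁰ K)⁻¹
        ≤ (((I₁ * I : Ideal 𝓜.A) : FractionalIdeal 𝓜.A⁰ K)⁻¹ * (I₂ : FractionalIdeal 𝓜.A⁰ K)) *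
          ((I₁ * I : Ideal 𝓜.A) : FractionalIdeal 𝓜.A⁰ K) *
          (I₂ : FractionalIdeal 𝓜.A⁰ K)⁻¹ := by gcongr
      _ = 1 := by
        rw [FractionalIdeal.coeIdeal_mul]
        field_simp
  obtain ⟨I', hI'⟩ := FractionalIdeal.le_one_iff_exists_coeIdeal.1 hle1
  have hI'0 : (I' : FractionalIdeal 𝓜.A⁰ K) ≠ 0 := by
    rw [hI', FractionalIdeal.coeIdeal_mul]
    exact mul_ne_zero (mul_ne_zero hs0 (mul_ne_zero h₁0 hI0)) (inv_ne_zero h₂0)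
  have hI'b : I' ≠ ⊥ := FractionalIdeal.coeIdeal_ne_zero.1 hI'0
  have e1 : s * ((I₁ * I : Ideal 𝓜.A) : FractionalIdeal 𝓜.A⁰ K) =
        ((I' * I₂ : Ideal 𝓜.A) : FractionalIdeal 𝓜.A⁰ K) := by
    rw [FractionalIdeal.coeIdeal_mul I', hI', mul_assoc, inv_mul_cancel₀ h₂0, mul_one]
  have e2 : s⁻¹ * ((I₂ * I' : Ideal 𝓜.A) : FractionalIdeal 𝓜.A⁰ K) =
        ((I * I₁ : Ideal 𝓜.A) : FractionalIdeal 𝓜.A⁰ K) := by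
    rw [mul_comm I₂ I', ← e1, ← mul_assoc, inv_mul_cancel₀ hs0, one_mul, mul_comm I₁ I]
  refine ⟨I', hI'b, ?_, e1, hginv, ?_, ?_⟩
  · have h := card_eq_of_unit g hg0 hgV hgV' (I₁ * I) (I' * I₂) (mul_ne_zero h₁ hI)
      (mul_ne_zero hI'b h₂) e1
    rw [card_mul _ _ h₁ hI, card_mul _ _ hI'b h₂] at h
    exact h
  · have h3 : s⁻¹ ≤ ((I₂ * I' : Ideal 𝓜.A) : FractionalIdeal 𝓜.A⁰ K)⁻¹ *
        (I₁ : FractionalIdeal 𝓜.A⁰ K) := by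
      have h4 : s⁻¹ = ((I₂ * I' : Ideal 𝓜.A) : FractionalIdeal 𝓜.A⁰ K)⁻¹ *
        (I₁ : FractionalIdeal 𝓜.A⁰ K) * (I : FractionalIdeal 𝓜.A⁰ K) := by
        have h5 : ((I₂ * I' : Ideal 𝓜.A) : FractionalIdeal 𝓜.A⁰ K) ≠ 0 :=
          FractionalIdeal.coeIdeal_ne_zero.2 (mul_ne_zero h₂ hI'b)
        have h6 := congrArg (fun X => ((I₂ * I' : Ideal 𝓜.A) : FractionalIdeal 𝓜.A⁰ K)⁻¹ * X) e2
        beta_reduce at h6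
        rw [mul_comm s⁻¹, ← mul_assoc, inv_mul_cancel₀ h5, one_mul, FractionalIdeal.coeIdeal_mul I]
          at h6
        rw [h6]; ring
      rw [h4]
      exact mul_coe_le _ _
    rw [← hsinv, FractionalIdeal.spanSingleton_le_iff_mem] at h3
    exact h3
  · rw [hsinv]; exact e2


/-- generalised double counting, for two norms -/
theorem double_count' (m : ℕ) (hm : 1 ≤ m)
    (I₁ I₂ : Ideal 𝓜.A) (h₁ : I₁ ≠ ⊥) (h₂ : I₂ ≠ ⊥) (N N' : ℕ) (hN : N ≠ 0) (hN' : N' ≠ 0)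
    (hcard : N * Nat.card (𝓜.A ⧸ I₁) = N' * Nat.card (𝓜.A ⧸ I₂))
    (S S' : Finset (Ideal 𝓜.A)) (hS : ∀ I, I ∈ S ↔ Nat.card (𝓜.A ⧸ I) = N)
    (hS' : ∀ I, I ∈ S' ↔ Nat.card (𝓜.A ⧸ I) = N') (C C' : ℕ)
    (hC : ∀ I ∈ S, fi (((I₁ * I : Ideal 𝓜.A) : FractionalIdeal 𝓜.A⁰ K)⁻¹ *
      (I₂ : FractionalIdeal 𝓜.A⁰ K)) ⊔ V 𝓜 (-m) = ⊤ ∧ Nat.card ↥(fi (((I₁ * I : Ideal 𝓜.A) :
      FractionalIdeal 𝓜.A⁰ K)⁻¹ * (I₂ : FractionalIdeal 𝓜.A⁰ K)) ⊓ V 𝓜 (-m)) = C)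
    (hC' : ∀ I ∈ S', fi (((I₂ * I : Ideal 𝓜.A) : FractionalIdeal 𝓜.A⁰ K)⁻¹ *
      (I₁ : FractionalIdeal 𝓜.A⁰ K)) ⊔ V 𝓜 (-m) = ⊤ ∧ Nat.card ↥(fi (((I₂ * I : Ideal 𝓜.A) :
      FractionalIdeal 𝓜.A⁰ K)⁻¹ * (I₁ : FractionalIdeal 𝓜.A⁰ K)) ⊓ V 𝓜 (-m)) = C') :
    C * S.card = C' * S'.card := by
  classical
  -- the finite sets of multipliers
  have key : ∀ (I₁ I₂ : Ideal 𝓜.A) (S : Finset (Ideal 𝓜.A)) (C : ℕ),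
      (∀ I ∈ S, fi (((I₁ * I : Ideal 𝓜.A) : FractionalIdeal 𝓜.A⁰ K)⁻¹ *
      (I₂ : FractionalIdeal 𝓜.A⁰ K)) ⊔ V 𝓜 (-m) = ⊤ ∧ Nat.card ↥(fi (((I₁ * I : Ideal 𝓜.A) :
      FractionalIdeal 𝓜.A⁰ K)⁻¹ * (I₂ : FractionalIdeal 𝓜.A⁰ K)) ⊓ V 𝓜 (-m)) = C) →
      ∃ G : Ideal 𝓜.A → Finset K, ∀ I ∈ S, (∀ g, g ∈ G I ↔ g - 1 ∈ V 𝓜 (-m) ∧
        g ∈ fi (((I₁ * I : Ideal 𝓜.A) : FractionalIdeal 𝓜.A⁰ K)⁻¹ *
      (I₂ : FractionalIdeal 𝓜.A⁰ K))) ∧ (G I).card = C := by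
    intro I₁ I₂ S C h
    refine ⟨fun I => if hI : I ∈ S then (count_coset _ _ (h I hI).1).1.toFinset else ∅, ?_⟩
    intro I hI
    beta_reduce
    rw [dif_pos hI]
    refine ⟨fun g => ?_, ?_⟩
    · rw [Set.Finite.mem_toFinset]; rfl
    · rw [← Set.ncard_eq_toFinset_card _ (count_coset _ _ (h I hI).1).1,
        (count_coset _ _ (h I hI).1).2, (h I hI).2]
  obtain ⟨G, hG⟩ := key I₁ I₂ S C hC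
  obtain ⟨G', hG'⟩ := key I₂ I₁ S' C' hC'
  have hL : C * S.card = (S.sigma G).card := by
    rw [Finset.card_sigma, Finset.sum_congr rfl (fun I hI => (hG I hI).2), Finset.sum_const,
      smul_eq_mul, mul_comm]
  have hR : C' * S'.card = (S'.sigma G').card := by
    rw [Finset.card_sigma, Finset.sum_congr rfl (fun I hI => (hG' I hI).2), Finset.sum_const,
      smul_eq_mul, mul_comm]
  rw [hL, hR]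
  have hSne : ∀ I ∈ S, I ≠ ⊥ := by
    intro I hI
    apply ne_bot_of_card'
    rw [(hS I).1 hI]; exact hN
  have hSne' : ∀ I ∈ S', I ≠ ⊥ := by
    intro I hI
    apply ne_bot_of_card'
    rw [(hS' I).1 hI]; exact hN'
  have step' : ∀ (I₁ I₂ I : Ideal 𝓜.A) (h₁ : I₁ ≠ ⊥) (h₂ : I₂ ≠ ⊥)
    (hI : I ≠ ⊥) (g : K)
    (hg : g - 1 ∈ V 𝓜 (-m))
    (hgJ : g ∈ fi (((I₁ * I : Ideal 𝓜.A) : FractionalIdeal 𝓜.A⁰ K)⁻¹ * (I₂ : FractionalIdeal 𝓜.A⁰ K))),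
    ∃ I' : Ideal 𝓜.A, I' ≠ ⊥ ∧ Nat.card (𝓜.A ⧸ I₁) * Nat.card (𝓜.A ⧸ I) =
        Nat.card (𝓜.A ⧸ I') * Nat.card (𝓜.A ⧸ I₂) ∧
      FractionalIdeal.spanSingleton 𝓜.A⁰ g * ((I₁ * I : Ideal 𝓜.A) : FractionalIdeal 𝓜.A⁰ K) =
        ((I' * I₂ : Ideal 𝓜.A) : FractionalIdeal 𝓜.A⁰ K) ∧
      g⁻¹ - 1 ∈ V 𝓜 (-m) ∧
      g⁻¹ ∈ fi (((I₂ * I' : Ideal 𝓜.A) : FractionalIdeal 𝓜.A⁰ K)⁻¹ *
        (I₁ : FractionalIdeal 𝓜.A⁰ K)) ∧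
      FractionalIdeal.spanSingleton 𝓜.A⁰ g⁻¹ *
        ((I₂ * I' : Ideal 𝓜.A) : FractionalIdeal 𝓜.A⁰ K) =
        ((I * I₁ : Ideal 𝓜.A) : FractionalIdeal 𝓜.A⁰ K) := by
    intro I₁ I₂ I h₁ h₂ hI g hg hgJ
    exact step_gen m hm I₁ I₂ I h₁ h₂ hI g hg hgJ
  have ex : ∀ x ∈ S.sigma G, ∃ I' : Ideal 𝓜.A, I' ≠ ⊥ ∧ Nat.card (𝓜.A ⧸ I₁) * Nat.card (𝓜.A ⧸ x.1) =
        Nat.card (𝓜.A ⧸ I') * Nat.card (𝓜.A ⧸ I₂) ∧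
      FractionalIdeal.spanSingleton 𝓜.A⁰ x.2 * ((I₁ * x.1 : Ideal 𝓜.A) : FractionalIdeal 𝓜.A⁰ K) =
        ((I' * I₂ : Ideal 𝓜.A) : FractionalIdeal 𝓜.A⁰ K) ∧
      (x.2)⁻¹ - 1 ∈ V 𝓜 (-m) ∧
      (x.2)⁻¹ ∈ fi (((I₂ * I' : Ideal 𝓜.A) : FractionalIdeal 𝓜.A⁰ K)⁻¹ *
        (I₁ : FractionalIdeal 𝓜.A⁰ K)) ∧
      FractionalIdeal.spanSingleton 𝓜.A⁰ (x.2)⁻¹ *
        ((I₂ * I' : Ideal 𝓜.A) : FractionalIdeal 𝓜.A⁰ K) =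
        ((x.1 * I₁ : Ideal 𝓜.A) : FractionalIdeal 𝓜.A⁰ K) := by
    intro x hx
    rw [Finset.mem_sigma] at hx
    have hg := ((hG x.1 hx.1).1 x.2).1 hx.2
    exact step' I₁ I₂ x.1 h₁ h₂ (hSne _ hx.1) x.2 hg.1 hg.2
  have hf₁ := finite_quotient I₁ h₁
  have hf₂ := finite_quotient I₂ h₂
  have hp₁ : 0 < Nat.card (𝓜.A ⧸ I₁) := Nat.card_pos
  have hp₂ : 0 < Nat.card (𝓜.A ⧸ I₂) := Nat.card_pos
  refine Finset.card_bij (fun x hx => ⟨Classical.choose (ex x hx), (x.2)⁻¹⟩) ?_ ?_ ?_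
  · intro x hx
    obtain ⟨hc1, hc2, hc3, hc4, hc5, hc6⟩ := Classical.choose_spec (ex x hx)
    have hx' := Finset.mem_sigma.1 hx
    have hmem : Classical.choose (ex x hx) ∈ S' := by
      rw [hS']
      refine Nat.eq_of_mul_eq_mul_right hp₂ ?_
      rw [← hc2, ← hcard, (hS _).1 hx'.1, mul_comm]
    rw [Finset.mem_sigma]
    exact ⟨hmem, ((hG' _ hmem).1 _).2 ⟨hc4, hc5⟩⟩
  · intro x hx y hy hxy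
    obtain ⟨hc1, hc2, hc3, hc4, hc5, hc6⟩ := Classical.choose_spec (ex x hx)
    obtain ⟨hd1, hd2, hd3, hd4, hd5, hd6⟩ := Classical.choose_spec (ex y hy)
    have hx' := Finset.mem_sigma.1 hx
    have hy' := Finset.mem_sigma.1 hy
    simp only [Sigma.mk.injEq, heq_eq_eq, inv_inj] at hxy
    obtain ⟨e1, e2⟩ := hxy
    have e3 : ((x.1 * I₁ : Ideal 𝓜.A) : FractionalIdeal 𝓜.A⁰ K) =
        ((y.1 * I₁ : Ideal 𝓜.A) : FractionalIdeal 𝓜.A⁰ K) := by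
      rw [← hc6, ← hd6, e1, e2]
    have e4 : x.1 = y.1 :=
      mul_right_cancel₀ h₁ (FractionalIdeal.coeIdeal_injective e3)
    obtain ⟨x1, x2⟩ := x
    obtain ⟨y1, y2⟩ := y
    simp only at e2 e4
    subst e2; subst e4; rfl
  · intro y hy
    have hy' := Finset.mem_sigma.1 hy
    have hg := ((hG' y.1 hy'.1).1 y.2).1 hy'.2
    obtain ⟨I, hc1, hc2, hc3, hc4, hc5, hc6⟩ := step' I₂ I₁ y.1 h₂ h₁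
      (hSne' _ hy'.1) y.2 hg.1 hg.2
    have hmem : I ∈ S := by
      rw [hS]
      refine Nat.eq_of_mul_eq_mul_right hp₁ ?_
      rw [← hc2, hcard, (hS' _).1 hy'.1, mul_comm]
    have hx : (⟨I, (y.2)⁻¹⟩ : (_ : Ideal 𝓜.A) × K) ∈ S.sigma G := by
      rw [Finset.mem_sigma]
      exact ⟨hmem, ((hG _ hmem).1 _).2 ⟨hc4, hc5⟩⟩
    refine ⟨⟨I, (y.2)⁻¹⟩, hx, ?_⟩
    obtain ⟨hd1, hd2, hd3, hd4, hd5, hd6⟩ := Classical.choose_spec (ex _ hx)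
    have e1 : Classical.choose (ex _ hx) = y.1 := by
      have e3 : ((Classical.choose (ex _ hx) * I₂ : Ideal 𝓜.A) : FractionalIdeal 𝓜.A⁰ K) =
        ((y.1 * I₂ : Ideal 𝓜.A) : FractionalIdeal 𝓜.A⁰ K) := by
        rw [← hd3, ← hc6]
      exact mul_right_cancel₀ h₂ (FractionalIdeal.coeIdeal_injective e3)
    refine Sigma.ext e1 ?_
    simp only [inv_inv, heq_eq_eq]

theorem card_ideals_ratio (𝓜 : Model K) (I₁ I₂ : Ideal 𝓜.A)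
    (h₁ : I₁ ≠ ⊥) (h₂ : I₂ ≠ ⊥) :
    ∃ N₀ : ℕ, ∀ N N' : ℕ, N₀ ≤ N → N₀ ≤ N' →
      N * Nat.card (𝓜.A ⧸ I₁) = N' * Nat.card (𝓜.A ⧸ I₂) →
      {I : Ideal 𝓜.A | Nat.card (𝓜.A ⧸ I) = N}.ncard * N' =
        {I : Ideal 𝓜.A | Nat.card (𝓜.A ⧸ I) = N'}.ncard * N := by
  classical
  obtain ⟨c, hc⟩ := riemann 𝓜 1
  have hf1 := finite_quotient _ h₁
  have hf2 := finite_quotient _ h₂
  have hpos1 : 0 < Nat.card (𝓜.A ⧸ I₁) := Nat.card_pos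
  have hpos2 : 0 < Nat.card (𝓜.A ⧸ I₂) := Nat.card_pos
  refine ⟨Nat.card (𝓜.A ⧸ I₁) * c + Nat.card (𝓜.A ⧸ I₂) * c + 1, fun N N' hNN hNN' hcard => ?_⟩
  have hN0 : N ≠ 0 := by omega
  have hN0' : N' ≠ 0 := by omega
  have hfin := finite_ideals 𝓜 N hN0
  have hfin' := finite_ideals 𝓜 N' hN0'
  rw [Set.ncard_eq_toFinset_card _ hfin, Set.ncard_eq_toFinset_card _ hfin']
  set S := hfin.toFinset with hSdef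
  set S' := hfin'.toFinset with hSdef'
  have hS : ∀ I, I ∈ S ↔ Nat.card (𝓜.A ⧸ I) = N := by
    intro I; rw [hSdef, Set.Finite.mem_toFinset]; rfl
  have hS' : ∀ I, I ∈ S' ↔ Nat.card (𝓜.A ⧸ I) = N' := by
    intro I; rw [hSdef', Set.Finite.mem_toFinset]; rfl
  have hSne : ∀ I ∈ S, I ≠ ⊥ := by
    intro I hI
    apply ne_bot_of_card'
    rw [(hS I).1 hI]; exact hN0
  have hSne' : ∀ I ∈ S', I ≠ ⊥ := by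
    intro I hI
    apply ne_bot_of_card'
    rw [(hS' I).1 hI]; exact hN0'
  have hsup : ∀ I ∈ S, fi (((I₁ * I : Ideal 𝓜.A) : FractionalIdeal 𝓜.A⁰ K)⁻¹ *
      (I₂ : FractionalIdeal 𝓜.A⁰ K)) ⊔ V 𝓜 (-((1 : ℕ) : ℤ)) = ⊤ := by
    intro I hI
    refine hc I₂ (I₁ * I) h₂ (mul_ne_zero h₁ (hSne I hI)) ?_
    rw [card_mul _ _ h₁ (hSne I hI), (hS I).1 hI]
    nlinarith
  have hsup' : ∀ I ∈ S', fi (((I₂ * I : Ideal 𝓜.A) : FractionalIdeal 𝓜.A⁰ K)⁻¹ *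
      (I₁ : FractionalIdeal 𝓜.A⁰ K)) ⊔ V 𝓜 (-((1 : ℕ) : ℤ)) = ⊤ := by
    intro I hI
    refine hc I₁ (I₂ * I) h₁ (mul_ne_zero h₂ (hSne' I hI)) ?_
    rw [card_mul _ _ h₂ (hSne' I hI), (hS' I).1 hI]
    nlinarith
  -- the constants
  have hcc : ∀ I ∈ S, ∀ J ∈ S, Nat.card ↥(fi (((I₁ * I : Ideal 𝓜.A) : FractionalIdeal 𝓜.A⁰ K)⁻¹ *
      (I₂ : FractionalIdeal 𝓜.A⁰ K)) ⊓ V 𝓜 (-((1 : ℕ) : ℤ))) =
      Nat.card ↥(fi (((I₁ * J : Ideal 𝓜.A) : FractionalIdeal 𝓜.A⁰ K)⁻¹ *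
      (I₂ : FractionalIdeal 𝓜.A⁰ K)) ⊓ V 𝓜 (-((1 : ℕ) : ℤ))) := by
    intro I hI J hJ
    refine card_inf_eq _ I₂ (I₁ * I) I₂ (I₁ * J) h₂ (mul_ne_zero h₁ (hSne I hI)) h₂
      (mul_ne_zero h₁ (hSne J hJ)) (hsup I hI) (hsup J hJ) ?_
    rw [card_mul _ _ h₁ (hSne I hI), card_mul _ _ h₁ (hSne J hJ), (hS I).1 hI, (hS J).1 hJ]
  have hcc' : ∀ I ∈ S', ∀ J ∈ S', Nat.card ↥(fi (((I₂ * I : Ideal 𝓜.A) : FractionalIdeal 𝓜.A⁰ K)⁻¹ *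
      (I₁ : FractionalIdeal 𝓜.A⁰ K)) ⊓ V 𝓜 (-((1 : ℕ) : ℤ))) =
      Nat.card ↥(fi (((I₂ * J : Ideal 𝓜.A) : FractionalIdeal 𝓜.A⁰ K)⁻¹ *
      (I₁ : FractionalIdeal 𝓜.A⁰ K)) ⊓ V 𝓜 (-((1 : ℕ) : ℤ))) := by
    intro I hI J hJ
    refine card_inf_eq _ I₁ (I₂ * I) I₁ (I₂ * J) h₁ (mul_ne_zero h₂ (hSne' I hI)) h₁
      (mul_ne_zero h₂ (hSne' J hJ)) (hsup' I hI) (hsup' J hJ) ?_
    rw [card_mul _ _ h₂ (hSne' I hI), card_mul _ _ h₂ (hSne' J hJ), (hS' I).1 hI, (hS' J).1 hJ]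
  have hpos : ∀ (J : FractionalIdeal 𝓜.A⁰ K) (n : ℤ), 0 < Nat.card ↥(fi J ⊓ V 𝓜 n) := by
    intro J n
    have := finite_fi J n
    exact Nat.card_pos
  rcases S.eq_empty_or_nonempty with hS0 | ⟨I0, hI0⟩
  · rcases S'.eq_empty_or_nonempty with hS0' | ⟨I0', hI0'⟩
    · rw [hS0, hS0']; simp
    · have := double_count' (𝓜 := 𝓜) 1 le_rfl I₁ I₂ h₁ h₂ N N' hN0 hN0' hcard S S' hS hS' 0
        (Nat.card ↥(fi (((I₂ * I0' : Ideal 𝓜.A) : FractionalIdeal 𝓜.A⁰ K)⁻¹ *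
      (I₁ : FractionalIdeal 𝓜.A⁰ K)) ⊓ V 𝓜 (-((1 : ℕ) : ℤ))))
        (fun I hI => by rw [hS0] at hI; simp at hI)
        (fun I hI => ⟨hsup' I hI, hcc' I hI I0' hI0'⟩)
      rw [zero_mul] at this
      have h2 := Finset.card_pos.2 ⟨I0', hI0'⟩
      have h3 := Nat.mul_pos (hpos (((I₂ * I0' : Ideal 𝓜.A) : FractionalIdeal 𝓜.A⁰ K)⁻¹ *
        (I₁ : FractionalIdeal 𝓜.A⁰ K)) (-((1 : ℕ) : ℤ))) h2
      omega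
  · rcases S'.eq_empty_or_nonempty with hS0' | ⟨I0', hI0'⟩
    · have := double_count' (𝓜 := 𝓜) 1 le_rfl I₁ I₂ h₁ h₂ N N' hN0 hN0' hcard S S' hS hS'
        (Nat.card ↥(fi (((I₁ * I0 : Ideal 𝓜.A) : FractionalIdeal 𝓜.A⁰ K)⁻¹ *
      (I₂ : FractionalIdeal 𝓜.A⁰ K)) ⊓ V 𝓜 (-((1 : ℕ) : ℤ)))) 0
        (fun I hI => ⟨hsup I hI, hcc I hI I0 hI0⟩)
        (fun I hI => by rw [hS0'] at hI; simp at hI)
      rw [zero_mul] at this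
      have h2 := Finset.card_pos.2 ⟨I0, hI0⟩
      have h3 := Nat.mul_pos (hpos (((I₁ * I0 : Ideal 𝓜.A) : FractionalIdeal 𝓜.A⁰ K)⁻¹ *
        (I₂ : FractionalIdeal 𝓜.A⁰ K)) (-((1 : ℕ) : ℤ))) h2
      omega
    · have hdc := double_count' (𝓜 := 𝓜) 1 le_rfl I₁ I₂ h₁ h₂ N N' hN0 hN0' hcard S S' hS hS'
        (Nat.card ↥(fi (((I₁ * I0 : Ideal 𝓜.A) : FractionalIdeal 𝓜.A⁰ K)⁻¹ *
      (I₂ : FractionalIdeal 𝓜.A⁰ K)) ⊓ V 𝓜 (-((1 : ℕ) : ℤ))))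
        (Nat.card ↥(fi (((I₂ * I0' : Ideal 𝓜.A) : FractionalIdeal 𝓜.A⁰ K)⁻¹ *
      (I₁ : FractionalIdeal 𝓜.A⁰ K)) ⊓ V 𝓜 (-((1 : ℕ) : ℤ))))
        (fun I hI => ⟨hsup I hI, hcc I hI I0 hI0⟩)
        (fun I hI => ⟨hsup' I hI, hcc' I hI I0' hI0'⟩)
      have hratio := card_inf_mul (𝓜 := 𝓜) (-((1 : ℕ) : ℤ)) I₂ (I₁ * I0) I₁ (I₂ * I0') h₂
        (mul_ne_zero h₁ (hSne I0 hI0)) h₁ (mul_ne_zero h₂ (hSne' I0' hI0')) (hsup I0 hI0)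
        (hsup' I0' hI0')
      rw [card_mul _ _ h₁ (hSne I0 hI0), card_mul _ _ h₂ (hSne' I0' hI0'), (hS I0).1 hI0,
        (hS' I0').1 hI0'] at hratio
      have hp := hpos (((I₁ * I0 : Ideal 𝓜.A) : FractionalIdeal 𝓜.A⁰ K)⁻¹ *
        (I₂ : FractionalIdeal 𝓜.A⁰ K)) (-((1 : ℕ) : ℤ))
      have hp' := hpos (((I₂ * I0' : Ideal 𝓜.A) : FractionalIdeal 𝓜.A⁰ K)⁻¹ *
        (I₁ : FractionalIdeal 𝓜.A⁰ K)) (-((1 : ℕ) : ℤ))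
      generalize Nat.card ↥(fi (((I₁ * I0 : Ideal 𝓜.A) : FractionalIdeal 𝓜.A⁰ K)⁻¹ *
      (I₂ : FractionalIdeal 𝓜.A⁰ K)) ⊓ V 𝓜 (-((1 : ℕ) : ℤ))) = C at hdc hratio hp
      generalize Nat.card ↥(fi (((I₂ * I0' : Ideal 𝓜.A) : FractionalIdeal 𝓜.A⁰ K)⁻¹ *
      (I₁ : FractionalIdeal 𝓜.A⁰ K)) ⊓ V 𝓜 (-((1 : ℕ) : ℤ))) = C' at hdc hratio hp'
      generalize Nat.card (𝓜.A ⧸ I₁) = a at *
      generalize Nat.card (𝓜.A ⧸ I₂) = b at *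
      generalize S.card = s at *
      generalize S'.card = s' at *
      -- `C s = C' s'`, `C b (b N') = C' a (a N)`, `N a = N' b`
      have h1 : C * N = C' * N' := by
        have e1 : (C * N) * (b * b * N') = (C' * N') * (b * b * N') := by
          calc (C * N) * (b * b * N') = (C * (b * (b * N'))) * N := by ring
            _ = (C' * (a * (a * N))) * N := by rw [hratio]
            _ = C' * ((N * a) * (N * a)) := by ring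
            _ = C' * ((N' * b) * (N' * b)) := by rw [hcard]
            _ = (C' * N') * (b * b * N') := by ring
        exact Nat.eq_of_mul_eq_mul_right (by positivity) e1
      have e2 : C * (s * N') = C * (s' * N) := by
        calc C * (s * N') = (C * s) * N' := by ring
          _ = (C' * s') * N' := by rw [hdc]
          _ = (C' * N') * s' := by ring
          _ = (C * N) * s' := by rw [h1]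
          _ = C * (s' * N) := by ring
      exact Nat.eq_of_mul_eq_mul_left hp e2

end Pool.Agent.Helper14.TaskC

namespace Pool.Agent.Helper7

open Pool.Agent.Helper14

/-- Z1. -/
theorem Model.card_ideals_ratio {K : Type*} [Field K] (𝓜 : Model K) (I₁ I₂ : Ideal 𝓜.A)
    (h₁ : I₁ ≠ ⊥) (h₂ : I₂ ≠ ⊥) :
    ∃ N₀ : ℕ, ∀ N N' : ℕ, N₀ ≤ N → N₀ ≤ N' →
      N * Nat.card (𝓜.A ⧸ I₁) = N' * Nat.card (𝓜.A ⧸ I₂) →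
      {I : Ideal 𝓜.A | Nat.card (𝓜.A ⧸ I) = N}.ncard * N' =
        {I : Ideal 𝓜.A | Nat.card (𝓜.A ⧸ I) = N'}.ncard * N :=
  TaskC.card_ideals_ratio 𝓜 I₁ I₂ h₁ h₂

end Pool.Agent.Helper7
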