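import Pool.Agent.Helper82.YM.Gibbs
import Pool.Agent.Helper82.YM.Refl

/-!
# Symmetry of Wilson loop expectations on the periodic lattice
-/

open MeasureTheory
open scoped Matrix.Norms.Frobenius

set_option linter.unusedSectionVars false

noncomputable section

namespace Pool.Agent.Helper82.YM

open Pool.Agent.LGT (tr haar)

/-- The action of a permutation of the coordinate directions on the vertices. -/
def permV {L : ℕ} (σ : Equiv.Perm (Fin 4)) (x : TV L) : TV L := fun k => x (σ.symm k)

lemma permV_add {L : ℕ} (σ : Equiv.Perm (Fin 4)) (x y : TV L) :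
    permV σ (x + y) = permV σ x + permV σ y := rfl

lemma permV_nsmul {L : ℕ} (σ : Equiv.Perm (Fin 4)) (n : ℕ) (x : TV L) :
    permV σ (n • x) = n • permV σ x := rfl

lemma permV_ts {L : ℕ} (σ : Equiv.Perm (Fin 4)) (i : Fin 4) :
    permV σ (ts i : TV L) = ts (σ i) := by
  funext k
  simp only [permV, ts, Pi.single_apply, Equiv.symm_apply_eq]

/-- The action on the vertices as a permutation. -/
def permVE {L : ℕ} (σ : Equiv.Perm (Fin 4)) : TV L ≃ TV L where
  toFun := permV σ
  invFun := permV σ.symm
  left_inv x := by funext k; simp [permV]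
  right_inv x := by funext k; simp [permV]

/-- The action on the edges. -/
def edgePerm {L : ℕ} (σ : Equiv.Perm (Fin 4)) : TE L ≃ TE L := (permVE σ).prodCongr σ

/-- The action on configurations. -/
def permU {L : ℕ} {Γ : Type*} (σ : Equiv.Perm (Fin 4)) (U : TE L → Γ) : TE L → Γ :=
  fun e => U (permV σ e.1, σ e.2)

section

variable {L : ℕ} {Γ : Type*} [Group Γ]

lemma tline_permU (σ : Equiv.Perm (Fin 4)) (U : TE L → Γ) (x : TV L) (i : Fin 4) (n : ℕ) :
    tline (permU σ U) x i n = tline U (permV σ x) (σ i) n := by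
  induction n with
  | zero => rfl
  | succ n ih =>
    simp only [tline, ih, permU]
    rw [permV_add, permV_nsmul, permV_ts]

lemma trect_permU (σ : Equiv.Perm (Fin 4)) (U : TE L → Γ) (x : TV L) (i j : Fin 4) (a b : ℕ) :
    trect (permU σ U) x i j a b = trect U (permV σ x) (σ i) (σ j) a b := by
  simp only [trect, tline_permU, permV_add, permV_nsmul, permV_ts]

lemma tplaq_permU (σ : Equiv.Perm (Fin 4)) (U : TE L → Γ) (x : TV L) (i j : Fin 4) :
    tplaq (permU σ U) x i j = tplaq U (permV σ x) (σ i) (σ j) := by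
  simp only [tplaq, permU, permV_add, permV_ts]

end

variable {N : ℕ} {G : Subgroup (Matrix.unitaryGroup (Fin N) ℂ)}

/-- The cost as a sum over all ordered pairs of different directions. -/
lemma two_tcost {L : ℕ} [NeZero L] (U : TE L → G) :
    2 * tcost G L U = ∑ p ∈ (Finset.univ : Finset (TV L × Fin 4 × Fin 4)).filter
      (fun p => p.2.1 ≠ p.2.2), cost (tplaq U p.1 p.2.1 p.2.2) := by
  classical
  have h1 : (Finset.univ : Finset (TV L × Fin 4 × Fin 4)).filter (fun p => p.2.1 ≠ p.2.2) =
      (Finset.univ.filter fun p => p.2.1 < p.2.2) ∪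
        (Finset.univ.filter fun p => p.2.2 < p.2.1) := by
    ext p
    simp only [Finset.mem_filter, Finset.mem_univ, true_and, Finset.mem_union]
    exact lt_or_lt_iff_ne.symm
  rw [h1, Finset.sum_union, two_mul]
  · congr 1
    rw [tcost, tplaqs]
    refine Finset.sum_bij (fun p _ => (p.1, p.2.2, p.2.1)) ?_ ?_ ?_ ?_
    · intro p hp
      simpa using hp
    · intro p _ q _ h
      simp only [Prod.mk.injEq] at h
      exact Prod.ext h.1 (Prod.ext h.2.2 h.2.1)
    · intro q hq
      refine ⟨(q.1, q.2.2, q.2.1), ?_, rfl⟩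
      simpa using hq
    · intro p _
      rw [cost_tplaq_swap]
  · rw [Finset.disjoint_left]
    intro p hp hq
    simp only [Finset.mem_filter, Finset.mem_univ, true_and] at hp hq
    exact lt_asymm hp hq

lemma tcost_permU {L : ℕ} [NeZero L] (σ : Equiv.Perm (Fin 4)) (U : TE L → G) :
    tcost G L (permU σ U) = tcost G L U := by
  have h : 2 * tcost G L (permU σ U) = 2 * tcost G L U := by
    rw [two_tcost, two_tcost]
    refine Finset.sum_bij (fun p _ => (permV σ p.1, σ p.2.1, σ p.2.2)) ?_ ?_ ?_ ?_
    · intro p hp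
      simp only [Finset.mem_filter, Finset.mem_univ, true_and] at hp ⊢
      exact fun h => hp (σ.injective h)
    · intro p _ q _ h
      simp only [Prod.mk.injEq, EmbeddingLike.apply_eq_iff_eq] at h
      exact Prod.ext ((permVE σ).injective h.1) (Prod.ext h.2.1 h.2.2)
    · intro q hq
      refine ⟨(permV σ.symm q.1, σ.symm q.2.1, σ.symm q.2.2), ?_, ?_⟩
      · simp only [Finset.mem_filter, Finset.mem_univ, true_and] at hq ⊢
        exact fun h => hq (σ.symm.injective h)
      · refine Prod.ext ((permVE σ).right_inv q.1) (Prod.ext ?_ ?_)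
        · simp
        · simp
    · intro p _
      rw [tplaq_permU]
  linarith

variable [CompactSpace G]

lemma measurePreserving_permU {L : ℕ} [NeZero L] (β : ℝ) (σ : Equiv.Perm (Fin 4)) :
    MeasurePreserving (permU σ) (tmu G β L) (tmu G β L) :=
  measurePreserving_tmu_of (measurePreserving_perm (haar G) (edgePerm σ) (fun _ => id)
    fun _ => MeasurePreserving.id _) (tcost_permU σ)

lemma twilson_of_mp {L : ℕ} [NeZero L] (β : ℝ) {T : (TE L → G) → (TE L → G)}
    (hT : MeasurePreserving T (tmu G β L) (tmu G β L)) {x y : TV L} {i j i' j' : Fin 4} {a b : ℕ}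
    (h : ∀ U, trect (T U) x i j a b = trect U y i' j' a b) :
    twilson G β L x i j a b = twilson G β L y i' j' a b := by
  rw [twilson_eq, twilson_eq]
  have h2 : AEStronglyMeasurable (fun U : TE L → G => tr (trect U x i j a b))
      ((tmu G β L).map T) := by
    rw [hT.map_eq]
    exact (integrable_tmu β (by fun_prop)).aestronglyMeasurable
  have h3 := integral_map hT.measurable.aemeasurable h2
  rw [hT.map_eq] at h3
  rw [h3]
  simp only [h]

lemma exists_perm {i j i' j' : Fin 4} (hij : i ≠ j) (hij' : i' ≠ j') :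
    ∃ σ : Equiv.Perm (Fin 4), σ i = i' ∧ σ j = j' := by
  refine ⟨Equiv.swap (Equiv.swap i i' j) j' * Equiv.swap i i', ?_, ?_⟩
  · rw [Equiv.Perm.mul_apply, Equiv.swap_apply_left, Equiv.swap_apply_of_ne_of_ne]
    · intro h
      have := congrArg (Equiv.swap i i') h
      rw [Equiv.swap_apply_right, Equiv.swap_apply_self] at this
      exact hij this
    · exact hij'
  · rw [Equiv.Perm.mul_apply, Equiv.swap_apply_left]

/-- The Wilson loop expectation depends only on the side lengths. -/
theorem twilson_sym {L : ℕ} [NeZero L] (β : ℝ) (x y : TV L) {i j i' j' : Fin 4}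
    (hij : i ≠ j) (hij' : i' ≠ j') (a b : ℕ) :
    twilson G β L x i j a b = twilson G β L y i' j' a b := by
  obtain ⟨σ, h1, h2⟩ := exists_perm hij hij'
  have e1 : twilson G β L x i j a b = twilson G β L (permV σ x) i' j' a b :=
    twilson_of_mp β (measurePreserving_permU β σ) fun U => by rw [trect_permU, h1, h2]
  have e2 : twilson G β L (permV σ x) i' j' a b = twilson G β L y i' j' a b :=
    twilson_of_mp β (measurePreserving_shift β (y - permV σ x)) fun U => by
      rw [trect_shift, add_sub_cancel]
  rw [e1, e2]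

end Pool.Agent.Helper82.YM
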